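import Mathlib.Analysis.InnerProductSpace.l2Space
import Mathlib.Analysis.Normed.Operator.Compact.Basic
import Mathlib.Analysis.Calculus.Deriv.Basic
import Mathlib.Analysis.SpecialFunctions.Exp
import Mathlib.Analysis.Quaternion
import Mathlib.Analysis.InnerProductSpace.ProdL2
import Mathlib.Analysis.Calculus.ContDiff.Operations
import Mathlib.Analysis.SpecialFunctions.Trigonometric.Basic
import Mathlib.MeasureTheory.Measure.Haar.InnerProductSpace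
import Mathlib.MeasureTheory.Function.LocallyIntegrable
import Mathlib.MeasureTheory.Integral.Bochner.Set
import Mathlib.Topology.Algebra.Module.Determinant
import Mathlib.Analysis.Normed.Operator.Mul
import Mathlib.LinearAlgebra.Trace
import Mathlib.Analysis.Normed.Module.FiniteDimension
import Mathlib.MeasureTheory.Function.L2Space
import Mathlib.Topology.OpenPartialHomeomorph.Composition
import Pool.Agent.MP_e1dc65_gt.Spec1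
import Mathlib.Analysis.Calculus.InverseFunctionTheorem.ApproximatesLinearOn
import Mathlib.Analysis.Calculus.MeanValue
import Mathlib.Analysis.Calculus.ContDiff.Defs
import Mathlib.Analysis.Calculus.Deriv.Slope
import Mathlib.Analysis.Calculus.Deriv.Prod
import Mathlib.Analysis.Calculus.TangentCone.Prod
import Mathlib.Analysis.Calculus.TangentCone.Real
import Mathlib.Geometry.Manifold.PartitionOfUnity

-- ======== part 0: formerly Pool.Agent.MP_e1dc65_gt.a.DefG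
section MrgPart0

-- ======== part 0: formerly Pool.Agent.MP_e1dc65_gt.a.DefF
section MrgPart0

/-! PROJECT HC, part A (index theory): the abstract functional analysis. `S` is the space of
smooth sections, `j` its embedding in the Hilbert space `H`, `D` the Dirac operator. -/

open scoped Topology RealInnerProductSpace
open Set Filter

noncomputable section

namespace Pool.Agent.MP_e1dc65_gt.A

section
variable {S H : Type} [AddCommGroup S] [Module ℝ S] [NormedAddCommGroup H] [InnerProductSpace ℝ H]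

/-- a symmetric elliptic operator -/
structure Ell (j : S →ₗ[ℝ] H) (D : S →ₗ[ℝ] S) : Prop where
  inj : Function.Injective j
  dense : DenseRange j
  sym : ∀ φ ψ, ⟪j (D φ), j ψ⟫ = ⟪j φ, j (D ψ)⟫
  reg : ∀ u : ℕ → H, (∀ n φ, ⟪u n, j (D (D φ))⟫ = ⟪u (n + 1), j φ⟫) → ∃ φ, j φ = u 0
  hs : ∃ C : ℝ, ∀ (m : ℕ) (ψ : Fin m → S),
    (∀ a : Fin m → ℝ, ∑ i ∈ Finset.range 4, ‖j (((D ∘ₗ D) ^ i) (∑ n, a n • ψ n))‖ ≤
      √(∑ n, a n ^ 2)) → ∑ n, ‖j (ψ n)‖ ^ 2 ≤ C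

/-- a complete orthonormal system of eigenfunctions of `L` -/
structure Eig (j : S →ₗ[ℝ] H) (L : S →ₗ[ℝ] S) {J : Type} (φ : J → S) (lam : J → ℝ) : Prop where
  on : Orthonormal ℝ fun n => j (φ n)
  tot : (Submodule.span ℝ (range fun n => j (φ n)))ᗮ = ⊥
  eig : ∀ n, L (φ n) = lam n • φ n
  pos : ∀ n, 0 ≤ lam n
  fin : ∀ R : ℝ, {n | lam n ≤ R}.Finite

/-- a parametrix of the heat equation for the evaluation functional `ev` -/
structure HPar (j : S →ₗ[ℝ] H) (L : S →ₗ[ℝ] S) (C : ℝ) (ev : S → ℝ) (k r : ℝ → S) : Prop where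
  der : ∀ ψ, ∀ s ∈ Ioo (0 : ℝ) 1, HasDerivAt (fun s => ⟪j ψ, j (k s)⟫)
    (⟪j ψ, j (r s)⟫ - ⟪j (L ψ), j (k s)⟫) s
  lim : ∀ ψ, Tendsto (fun s => ⟪j ψ, j (k s)⟫) (𝓝[>] 0) (𝓝 (ev ψ))
  br : ∀ s ∈ Ioo (0 : ℝ) 1, ‖j (r s)‖ ≤ C
  bk : ∀ s ∈ Ioo (0 : ℝ) 1, ‖j (k s)‖ ≤ C / s ^ 2

/-- index of an involution `A` on the kernel of `D` -/
def ind (D A : S →ₗ[ℝ] S) : ℝ :=
  (Module.finrank ℝ ↥(LinearMap.ker D ⊓ LinearMap.ker (A - 1)) : ℝ) -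
    Module.finrank ℝ ↥(LinearMap.ker D ⊓ LinearMap.ker (A + 1))

end

/-- the resolvent `(1 + D²)⁻¹`: first component of the projection onto the closed graph -/
def ResStmt : Prop := ∀ (S H : Type) [AddCommGroup S] [Module ℝ S] [NormedAddCommGroup H]
  [InnerProductSpace ℝ H] [CompleteSpace H] (j : S →ₗ[ℝ] H) (D : S →ₗ[ℝ] S), Ell j D →
  ∃ T : H →L[ℝ] H, (∀ u v, ⟪T u, v⟫ = ⟪u, T v⟫) ∧
    (∀ f φ, ⟪T f, j (φ + D (D φ))⟫ = ⟪f, j φ⟫) ∧ IsCompactOperator T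

/-- the eigenfunction expansion -/
def EigStmt : Prop := ∀ (S H : Type) [AddCommGroup S] [Module ℝ S] [NormedAddCommGroup H]
  [InnerProductSpace ℝ H] [CompleteSpace H] (j : S →ₗ[ℝ] H) (D : S →ₗ[ℝ] S), Ell j D →
  ∃ (J : Type) (φ : J → S) (lam : J → ℝ), Eig j (D ∘ₗ D) φ lam

/-- the Hodge theorem and the McKean-Singer formula -/
def MsStmt : Prop := ∀ (S H : Type) [AddCommGroup S] [Module ℝ S] [NormedAddCommGroup H]
  [InnerProductSpace ℝ H] [CompleteSpace H] (j : S →ₗ[ℝ] H) (D : S →ₗ[ℝ] S) (J : Type)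
  (φ : J → S) (lam : J → ℝ), Ell j D → Eig j (D ∘ₗ D) φ lam →
  Countable J ∧ FiniteDimensional ℝ (LinearMap.ker D) ∧
  (∀ f, (∀ h, D h = 0 → ⟪j f, j h⟫ = 0) → ∃ g, D g = f) ∧
  ∀ (A : S →ₗ[ℝ] S) (t a : ℝ), (∀ ψ, A (A ψ) = ψ) → (∀ ψ, A (D ψ) = -D (A ψ)) →
    HasSum (fun n => Real.exp (-(lam n * t)) * ⟪j (A (φ n)), j (φ n)⟫) a → a = ind D A

/-- the heat kernel is close to the parametrix; the a priori estimate -/
def HeatStmt : Prop := ∀ (S H : Type) [AddCommGroup S] [Module ℝ S] [NormedAddCommGroup H]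
  [InnerProductSpace ℝ H] [CompleteSpace H] (j : S →ₗ[ℝ] H) (L : S →ₗ[ℝ] S) (C : ℝ) (ev : S → ℝ)
  (k r : ℝ → S), HPar j L C ev k r →
  (∀ ψ, |ev ψ| ≤ 5 * C * ∑ i ∈ Finset.range 4, ‖j ((L ^ i) ψ)‖) ∧
  ∀ (J : Type) (φ : J → S) (lam : J → ℝ), Eig j L φ lam → ∀ t ∈ Ioo (0 : ℝ) (1 / 2),
    (Summable fun n => Real.exp (-(lam n * t)) * ev (φ n) ^ 2) ∧
    ∑' n, Real.exp (-(lam n * t)) * ev (φ n) ^ 2 ≤ (5 * C / t ^ 2) ^ 2 ∧
    ∀ (ev' : S → ℝ) (k' r' : ℝ → S), HPar j L C ev' k' r' →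
      (∀ σ ∈ Ioo (0 : ℝ) 1, ∀ s ∈ Ioo (0 : ℝ) 1, |⟪j (k' σ), j (r s)⟫| ≤ C) →
      |∑' n, Real.exp (-(lam n * t)) * (ev' (φ n) * ev (φ n)) - ev' (k t)| ≤ (C + C ^ 2) * t

/-- quaternionic kernels: the two indices add up to a multiple of `8` -/
def QalgStmt : Prop := ∀ (S : Type) [AddCommGroup S] [Module ℝ S] (D A B I J : S →ₗ[ℝ] S),
  FiniteDimensional ℝ (LinearMap.ker D) → (∀ ψ, A (A ψ) = ψ) → (∀ ψ, B (B ψ) = ψ) →
  (∀ ψ, A (B ψ) = B (A ψ)) → (∀ ψ, A (D ψ) = -D (A ψ)) → (∀ ψ, B (D ψ) = -D (B ψ)) →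
  (∀ ψ, I (I ψ) = -ψ) → (∀ ψ, J (J ψ) = -ψ) → (∀ ψ, I (J ψ) = -J (I ψ)) →
  (∀ ψ, I (D ψ) = D (I ψ)) → (∀ ψ, J (D ψ) = D (J ψ)) → (∀ ψ, I (A ψ) = A (I ψ)) →
  (∀ ψ, J (A ψ) = A (J ψ)) → (∀ ψ, I (B ψ) = B (I ψ)) → (∀ ψ, J (B ψ) = B (J ψ)) →
  ∃ n : ℤ, ind D A + ind D B = 8 * n

/-- symmetric and positive definite -/
def Pd {A : Type} [AddCommGroup A] [Module ℝ A] (B : A →ₗ[ℝ] A →ₗ[ℝ] ℝ) : Prop :=
  (∀ a b, B a b = B b a) ∧ ∀ a, a ≠ 0 → 0 < B a a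

/-- the linear algebra of the signature theorem: `b⁺ = b⁻`, and the two indices cancel -/
def HalgStmt : Prop := ∀ (A₀ A₁ P M Sl Sr : Type) [AddCommGroup A₀] [Module ℝ A₀] [AddCommGroup A₁]
  [Module ℝ A₁] [AddCommGroup P] [Module ℝ P] [AddCommGroup M] [Module ℝ M] [AddCommGroup Sl]
  [Module ℝ Sl] [AddCommGroup Sr] [Module ℝ Sr] (B₀ : A₀ →ₗ[ℝ] A₀ →ₗ[ℝ] ℝ)
  (B₁ : A₁ →ₗ[ℝ] A₁ →ₗ[ℝ] ℝ) (BP : P →ₗ[ℝ] P →ₗ[ℝ] ℝ) (BM : M →ₗ[ℝ] M →ₗ[ℝ] ℝ)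
  (gr : A₀ →ₗ[ℝ] A₁) (dv : A₁ →ₗ[ℝ] A₀) (dp : A₁ →ₗ[ℝ] P) (dm : A₁ →ₗ[ℝ] M) (δp : P →ₗ[ℝ] A₁)
  (δm : M →ₗ[ℝ] A₁) (el : (A₀ × P × A₁) ≃ₗ[ℝ] Sl) (er : (A₁ × A₀ × M) ≃ₗ[ℝ] Sr)
  (Dl Γl : Sl →ₗ[ℝ] Sl) (Dr Γr : Sr →ₗ[ℝ] Sr) (Kp Km : Set (P × M)),
  Pd B₀ → Pd B₁ → Pd BP → Pd BM →
  (∀ f u v, Dl (el (f, u, v)) = el (dv v, dp v, δp u - gr f)) →
  (∀ f u v, Γl (el (f, u, v)) = el (f, u, -v)) →
  (∀ v f w, Dr (er (v, f, w)) = er (gr f + δm w, -dv v, -dm v)) →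
  (∀ v f w, Γr (er (v, f, w)) = er (v, -f, -w)) →
  (∀ v u, BP (dp v) u = B₁ v (δp u)) → (∀ v w, BM (dm v) w = -B₁ v (δm w)) →
  (∀ f, dp (gr f) = 0 ∧ dm (gr f) = 0) → (∀ v v', BP (dp v) (dp v') = BM (dm v) (dm v')) →
  FiniteDimensional ℝ (LinearMap.ker Dl) → FiniteDimensional ℝ (LinearMap.ker Dr) →
  (∀ u, (∀ f' u' v', Dl (el (f', u', v')) = 0 → BP u u' = 0) → ∃ g, Dl g = el (0, u, 0)) →
  (∀ a ∈ Kp, (∀ v, BP (dp v) a.1 = BM (dm v) a.2) ∧ ∀ b ∈ Kp, BP a.1 b.1 = BM a.2 b.2) →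
  (∀ a ∈ Km, (∀ v, BP (dp v) a.1 = BM (dm v) a.2) ∧ ∀ b ∈ Km, BP a.1 b.1 = BM a.2 b.2) →
  (∀ z : P × M, (∀ v, BP (dp v) z.1 = BM (dm v) z.2) →
    ∃ a ∈ Kp, ∃ b ∈ Km, ∃ v, z = a + b + (dp v, dm v)) →
  ind Dl Γl + ind Dr Γr = 0

end Pool.Agent.MP_e1dc65_gt.A

end
end MrgPart0

-- ======== part 1: formerly Pool.Agent.MP_e1dc65_gt.a.DefL
section MrgPart1

/-! PROJECT HC, part A (index theory): definitions and statements of the local analysis. -/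

set_option maxSynthPendingDepth 3

open scoped Quaternion ContDiff Topology RealInnerProductSpace
open Set Filter MeasureTheory Metric

noncomputable section

namespace Pool.Agent.MP_e1dc65_gt.A

/-- the model space of the charts -/
abbrev E4 : Type := EuclideanSpace ℝ (Fin 4)

/-- quaternions as `E4` -/
abbrev qv : ℍ ≃ₗᵢ[ℝ] E4 := Quaternion.linearIsometryEquivTuple

/-- the basis `1, i, j, k` -/
def ε : OrthonormalBasis (Fin 4) ℝ ℍ := (EuclideanSpace.basisFun (Fin 4) ℝ).map qv.symm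

/-- coordinates of a quaternion -/
def co (b : Fin 4) : ℍ →L[ℝ] ℝ := innerSL ℝ (ε b)

/-- volume factor of a coframe -/
def jac (A : E4 →L[ℝ] ℍ) : ℝ := |((qv.toContinuousLinearEquiv : ℍ →L[ℝ] E4).comp A).det|

/-- the heat kernel of `ℝ⁴` -/
def hk (t : ℝ) (z : ℍ) : ℝ := ((4 * Real.pi * t) ^ 2)⁻¹ * Real.exp (-‖z‖ ^ 2 / (4 * t))

section Cls
variable {P B : Type} [NormedAddCommGroup P] [NormedSpace ℝ P] [NormedAddCommGroup B]
  [NormedSpace ℝ B]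

/-- smooth functions in the `j`-th power of the ideal generated by the coordinates of `z` -/
def Van (z : P → ℍ) : ℕ → (P → B) → Prop
  | 0, a => ContDiff ℝ ∞ a
  | j + 1, a => ∃ a' : Fin 4 → P → B, (∀ b, Van z j (a' b)) ∧ ∀ p, a p = ∑ b, co b (z p) • a' b p

/-- kernels of parabolic weight at least `μ` relative to the heat kernel -/
inductive Wt (z : P → ℍ) (μ : ℤ) : (ℝ → P → B) → Prop
  | gen (n : ℤ) (j : ℕ) (a : P → B) : Van z j a → μ ≤ j + 2 * n →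
      Wt z μ fun t p => (t ^ n * hk t (z p)) • a p
  | add {F G : ℝ → P → B} : Wt z μ F → Wt z μ G → Wt z μ fun t p => F t p + G t p
  | congr {F G : ℝ → P → B} : Wt z μ F → (∀ t, 0 < t → ∀ p, G t p = F t p) → Wt z μ G

/-- derivative along the second factor -/
def pd (b : Fin 4) (F : P × ℍ → B) (p : P × ℍ) : B := fderiv ℝ F p (0, ε b)

end Cls

/-! ### Families of Laplace type operators on `ℍ` -/

/-- coefficients of a family of operators on `ℍ` with parameter in `Y` -/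
structure Op (Y 𝔸 : Type) where
  g : Fin 4 → Fin 4 → Y × ℍ → ℝ
  n : Fin 4 → Y × ℍ → 𝔸
  m : Y × ℍ → 𝔸

section Op
variable {Y 𝔸 : Type} [NormedAddCommGroup Y] [NormedSpace ℝ Y] [NormedRing 𝔸] [NormedAlgebra ℝ 𝔸]

structure Op.Ok (L : Op Y 𝔸) : Prop where
  g : ∀ b c, ContDiff ℝ ∞ (L.g b c)
  n : ∀ b, ContDiff ℝ ∞ (L.n b)
  m : ContDiff ℝ ∞ L.m
  g0 : ∀ b c y, L.g b c (y, 0) = if b = c then 1 else 0

def Op.ap (L : Op Y 𝔸) (F : Y × ℍ → 𝔸) (p : Y × ℍ) : 𝔸 :=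
  -∑ b, ∑ c, L.g b c p • pd b (pd c F) p + ∑ b, L.n b p * pd b F p + L.m p * F p

def Op.heat (L : Op Y 𝔸) (F : ℝ → Y × ℍ → 𝔸) (t : ℝ) (p : Y × ℍ) : 𝔸 :=
  deriv (fun s => F s p) t + L.ap (F t) p

end Op

/-- one step of the parametrix recursion -/
def ImpStmt : Prop := ∀ (Y 𝔸 : Type) [NormedAddCommGroup Y] [NormedSpace ℝ Y]
  [FiniteDimensional ℝ Y] [NormedRing 𝔸] [NormedAlgebra ℝ 𝔸] [CompleteSpace 𝔸] (L : Op Y 𝔸),
  L.Ok → ∀ (μ : ℤ), -1 ≤ μ → ∀ r : ℝ → Y × ℍ → 𝔸, Wt Prod.snd μ r →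
    ∃ c, Wt Prod.snd (μ + 2) c ∧ Wt Prod.snd (μ + 1) fun t p => L.heat c t p - r t p

/-- a parametrix can be improved to any order and cut off; the first approximation -/
def PexStmt : Prop := ∀ (Y 𝔸 : Type) [NormedAddCommGroup Y] [NormedSpace ℝ Y]
  [FiniteDimensional ℝ Y] [NormedRing 𝔸] [NormedAlgebra ℝ 𝔸] [CompleteSpace 𝔸] (L : Op Y 𝔸),
  L.Ok → Wt Prod.snd (-1) (L.heat fun t p => hk t p.2 • (1 : 𝔸)) ∧
    ∀ (μ : ℤ), -1 ≤ μ → ∀ k₀ : ℝ → Y × ℍ → 𝔸, Wt Prod.snd 0 k₀ → Wt Prod.snd μ (L.heat k₀) →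
      ∀ (M : ℤ) (δ : ℝ), 0 < δ → ∃ k, (Wt Prod.snd (μ + 2) fun t p => k t p - k₀ t p) ∧
        Wt Prod.snd M (L.heat k) ∧ ∀ t p, δ ≤ ‖p.2‖ → k t p = 0

/-- the supertrace of the parametrix on the diagonal in a good gauge -/
def DiagStmt : Prop := ∀ (Y 𝔸 : Type) [NormedAddCommGroup Y] [NormedSpace ℝ Y]
  [FiniteDimensional ℝ Y] [NormedRing 𝔸] [NormedAlgebra ℝ 𝔸] [CompleteSpace 𝔸] (L : Op Y 𝔸)
  (σ : 𝔸 →L[ℝ] ℝ) (γ : 𝔸) (s : Fin 4 → Y × ℍ → ℝ) (n' : Fin 4 → Y × ℍ → 𝔸) (m' q : Y × ℍ → 𝔸)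
  (ν κ : Fin 4 → Fin 4 → 𝔸) (m₀ : 𝔸), L.Ok → σ 1 = 0 → σ γ = 1 → (∀ b, ContDiff ℝ ∞ (s b)) →
  (∀ b p, L.n b p = s b p • (1 : 𝔸) + n' b p) → (∀ p, L.m p = m' p + q p) →
  (∀ b p, σ (n' b p) = 0) → (∀ p, σ (m' p) = 0) → (∀ b c, ν b c = -ν c b) →
  (∀ b, Van Prod.snd 2 fun p => n' b p - ∑ c, co c p.2 • ν b c) →
  (Van Prod.snd 1 fun p => m' p - m₀) →
  (Van Prod.snd 3 fun p => q p - ∑ b, ∑ c, (co b p.2 * co c p.2) • κ b c) →
  ∃ k, (Wt Prod.snd 1 fun t p => k t p - hk t p.2 • (1 : 𝔸)) ∧ Wt Prod.snd 3 (L.heat k) ∧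
    ∀ t, 0 < t → ∀ y, σ (k t (y, 0)) =
      ((4 * Real.pi) ^ 2)⁻¹ * (σ (m₀ * m₀) / 2 - (∑ b, σ (κ b b)) / 3)

/-- parametric integrals of kernels against an integrable function with bounded support -/
def SmiStmt : Prop := ∀ (Y B C : Type) [NormedAddCommGroup Y] [NormedSpace ℝ Y]
  [FiniteDimensional ℝ Y] [NormedAddCommGroup B] [NormedSpace ℝ B] [NormedAddCommGroup C]
  [NormedSpace ℝ C] [CompleteSpace C] (z : Y × E4 → ℍ) (μ : ℤ) (F : ℝ → Y × E4 → B)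
  (u : E4 → B →L[ℝ] C) (K : Set E4), ContDiff ℝ ∞ z → Wt z μ F → Integrable u → IsCompact K →
  (∀ x ∉ K, u x = 0) →
  (∀ t, 0 < t → ∀ y, Integrable fun x => u x (F t (y, x))) ∧
  (∀ t, 0 < t → ContDiff ℝ ∞ fun y => ∫ x, u x (F t (y, x))) ∧
  (∀ t, 0 < t → ∀ y, HasDerivAt (fun s => ∫ x, u x (F s (y, x)))
    (∫ x, u x (deriv (fun s => F s (y, x)) t)) t) ∧
  (∀ y, ContinuousOn (fun s => ∫ x, u x (F s (y, x))) (Ioi 0)) ∧
  ∀ l : ℕ, (l : ℤ) + 4 ≤ μ → ∀ T ∈ Ioc (0 : ℝ) 1,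
    ContDiff ℝ l fun y => ∫ s in Ioc 0 T, ∫ x, u x (F s (y, x))

/-- Gaussian bounds and the approximate identity with a nonlinear phase -/
def AiStmt : Prop :=
  (∀ (z : E4 → ℍ) (y : E4) (S : Set E4) (c t : ℝ), 0 < c → 0 < t → MeasurableSet S →
    ContinuousOn z S → (∀ x ∈ S, c * ‖x - y‖ ≤ ‖z x‖) →
    IntegrableOn (fun x => hk t (z x)) S ∧ ∫ x in S, hk t (z x) ≤ (c ^ 4)⁻¹) ∧
  ∀ (B : Type) [NormedAddCommGroup B] [NormedSpace ℝ B] [CompleteSpace B] (z : E4 → ℍ) (y : E4)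
    (A : E4 →L[ℝ] ℍ) (S : Set E4) (c : ℝ) (a : E4 → B), 0 < c → IsCompact S → S ∈ 𝓝 y →
    ContinuousOn z S → ContinuousOn a S → z y = 0 → HasFDerivAt z A y →
    (∀ x ∈ S, c * ‖x - y‖ ≤ ‖z x‖) →
    Tendsto (fun t => ∫ x in S, hk t (z x) • a x) (𝓝[>] 0) (𝓝 ((jac A)⁻¹ • a y))

/-! ### Laplace type operators in a chart -/

/-- the fibre of the spinor bundles -/
abbrev W : Type := WithLp 2 (ℍ × ℍ)

/-- covariant derivative along a vector field -/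
def cov (om : E4 → E4 →L[ℝ] W →L[ℝ] W) (v : E4 → E4) (s : E4 → W) (x : E4) : W :=
  fderiv ℝ s x (v x) + om x (v x) (s x)

/-- coframe, frame, connection, drift and potential -/
structure Lap where
  θ : E4 → E4 →L[ℝ] ℍ
  e : E4 → ℍ →L[ℝ] E4
  om : E4 → E4 →L[ℝ] W →L[ℝ] W
  h : E4 → E4
  V : E4 → W →L[ℝ] W

/-- a smooth coframe on an open set with its dual frame -/
structure Frm (θ : E4 → E4 →L[ℝ] ℍ) (e : E4 → ℍ →L[ℝ] E4) (T : Set E4) : Prop where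
  op : IsOpen T
  θs : ContDiffOn ℝ ∞ θ T
  es : ContDiffOn ℝ ∞ e T
  θe : ∀ x ∈ T, ∀ v, θ x (e x v) = v
  eθ : ∀ x ∈ T, ∀ v, e x (θ x v) = v

structure Lap.Ok (L : Lap) (T : Set E4) : Prop where
  frm : Frm L.θ L.e T
  om : ContDiffOn ℝ ∞ L.om T
  h : ContDiffOn ℝ ∞ L.h T
  V : ContDiffOn ℝ ∞ L.V T

/-- the frame vector fields -/
def fr (e : E4 → ℍ →L[ℝ] E4) (a : Fin 4) (x : E4) : E4 := e x (ε a)

def Lap.ap (L : Lap) (s : E4 → W) (x : E4) : W :=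
  -∑ a, cov L.om (fr L.e a) (cov L.om (fr L.e a) s) x + cov L.om L.h s x + L.V x (s x)

/-- the coefficients of `L` in the linear coordinates `z = A (x - y)`, `x = y + A' z` -/
def Lap.op {Y : Type} (L : Lap) (y : Y → E4) (A : Y → E4 →L[ℝ] ℍ) (A' : Y → ℍ →L[ℝ] E4) :
    Op Y (W →L[ℝ] W) where
  g b c p := ∑ a, co b (A p.1 (fr L.e a (y p.1 + A' p.1 p.2))) *
    co c (A p.1 (fr L.e a (y p.1 + A' p.1 p.2)))
  n b p := co b (A p.1 (L.h (y p.1 + A' p.1 p.2) - ∑ a, fderiv ℝ (fr L.e a) (y p.1 + A' p.1 p.2)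
      (fr L.e a (y p.1 + A' p.1 p.2)))) • (1 : W →L[ℝ] W) +
    (-2 : ℝ) • ∑ a, co b (A p.1 (fr L.e a (y p.1 + A' p.1 p.2))) •
      L.om (y p.1 + A' p.1 p.2) (fr L.e a (y p.1 + A' p.1 p.2))
  m p := (L.om (y p.1 + A' p.1 p.2) (L.h (y p.1 + A' p.1 p.2)) + L.V (y p.1 + A' p.1 p.2) -
      ∑ a, fderiv ℝ (fun x => L.om x (fr L.e a x)) (y p.1 + A' p.1 p.2)
        (fr L.e a (y p.1 + A' p.1 p.2))) +
    -∑ a, L.om (y p.1 + A' p.1 p.2) (fr L.e a (y p.1 + A' p.1 p.2)) *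
      L.om (y p.1 + A' p.1 p.2) (fr L.e a (y p.1 + A' p.1 p.2))

/-- coefficients composed with a map -/
def Lap.comp (L : Lap) (ψ : E4 → E4) : Lap :=
  ⟨fun x => L.θ (ψ x), fun x => L.e (ψ x), fun x => L.om (ψ x), fun x => L.h (ψ x),
    fun x => L.V (ψ x)⟩

/-- expansion of `L` in linear coordinates; smooth extension of the coefficients; locality -/
def ExpStmt : Prop :=
  (∀ (Y : Type) [NormedAddCommGroup Y] [NormedSpace ℝ Y] (L : Lap) (y : Y → E4)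
    (A : Y → E4 →L[ℝ] ℍ) (A' : Y → ℍ →L[ℝ] E4) (k : Y × ℍ → W →L[ℝ] W) (η : Y) (x : E4) (w : W),
    L.Ok univ → ContDiff ℝ ∞ k → (∀ v, A' η (A η v) = v) →
    L.ap (fun x => k (η, A η (x - y η)) w) x = (L.op y A A').ap k (η, A η (x - y η)) w) ∧
  (∀ (Y : Type) [NormedAddCommGroup Y] [NormedSpace ℝ Y] (L : Lap) (y : Y → E4),
    L.Ok univ → ContDiff ℝ ∞ y → (L.op y (fun η => L.θ (y η)) fun η => L.e (y η)).Ok) ∧
  (∀ (T : Set E4) (y : E4), T ∈ 𝓝 y → ∃ r > 0, closedBall y (2 * r) ⊆ T ∧ ∃ ψ : E4 → E4,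
    ContDiff ℝ ∞ ψ ∧ (∀ x, ψ x ∈ T) ∧ ∀ x ∈ ball y (3 * r), ψ x = x) ∧
  (∀ (L : Lap) (T : Set E4) (ψ : E4 → E4), L.Ok T → ContDiff ℝ ∞ ψ → (∀ x, ψ x ∈ T) →
    (L.comp ψ).Ok univ) ∧
  ∀ (L L' : Lap) (s s' : E4 → W) (x : E4), L.e =ᶠ[𝓝 x] L'.e → L.om =ᶠ[𝓝 x] L'.om → L.h x = L'.h x →
    L.V x = L'.V x → s =ᶠ[𝓝 x] s' → L.ap s x = L'.ap s' x

/-- a parametrix with pole at `y`, supported in `K`, with constant `C` -/
structure PPar (L : Lap) (y : E4) (K : Set E4) (C : ℝ) (k ρ : ℝ → E4 → W →L[ℝ] W) : Prop where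
  kW : Wt (fun x => L.θ y (x - y)) 1 fun t x => k t x - hk t (L.θ y (x - y)) • (1 : W →L[ℝ] W)
  ρW : Wt (fun x => L.θ y (x - y)) 4 ρ
  sup : ∀ t, ∀ x ∉ K, k t x = 0 ∧ ρ t x = 0
  eq : ∀ t, 0 < t → ∀ x w, deriv (fun s => k s x) t w + L.ap (fun x => k t x w) x = ρ t x w
  bk : ∀ t ∈ Ioc (0 : ℝ) 1, ∀ x, ‖k t x‖ ≤ C * hk (2 * t) (L.θ y (x - y))
  bρ : ∀ t ∈ Ioc (0 : ℝ) 1, ∀ x, ‖ρ t x‖ ≤ C

/-- a parametrix of order `M` depending smoothly on the pole `y` near `y₀`; the kernels are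
functions of `(y, x)` -/
structure LPar (L : Lap) (y₀ : E4) (r : ℝ) (θ' : E4 → E4 →L[ℝ] ℍ) (M : ℤ)
    (k ρ : ℝ → E4 × E4 → W →L[ℝ] W) : Prop where
  kW : Wt (fun p : E4 × E4 => θ' p.1 (p.2 - p.1)) 1 fun t p =>
    k t p - hk t (θ' p.1 (p.2 - p.1)) • (1 : W →L[ℝ] W)
  ρW : Wt (fun p : E4 × E4 => θ' p.1 (p.2 - p.1)) M ρ
  sup : ∀ y ∈ closedBall y₀ r, ∀ t, ∀ x ∉ closedBall y₀ (2 * r), k t (y, x) = 0 ∧ ρ t (y, x) = 0
  eq : ∀ y ∈ closedBall y₀ r, ∀ t, 0 < t → ∀ x w,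
    deriv (fun s => k s (y, x)) t w + L.ap (fun x => k t (y, x) w) x = ρ t (y, x) w
  par : 4 ≤ M → ∃ C, ∀ y ∈ closedBall y₀ r,
    PPar L y (closedBall y₀ (2 * r)) C (fun t x => k t (y, x)) fun t x => ρ t (y, x)

/-- existence of the parametrix -/
def LpStmt : Prop := ∀ (L : Lap) (T : Set E4), L.Ok T → ∀ y₀ ∈ T, ∀ N ∈ 𝓝 y₀, ∃ r > 0,
  closedBall y₀ (2 * r) ⊆ T ∩ N ∧ ∃ θ' : E4 → E4 →L[ℝ] ℍ, ContDiff ℝ ∞ θ' ∧
    (∀ x ∈ closedBall y₀ (2 * r), θ' x = L.θ x) ∧ ∀ M, ∃ k ρ, LPar L y₀ r θ' M k ρ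

/-- the approximate identity tested against a continuous function of the pole -/
def Ai2Stmt : Prop := ∀ (θ' : E4 → E4 →L[ℝ] ℍ) (S K : Set E4) (c : ℝ)
  (k : ℝ → E4 × E4 → W →L[ℝ] W) (u ψ : E4 → W), ContDiff ℝ ∞ θ' → IsCompact S → IsCompact K →
  0 < c → (∀ y ∈ S, ∀ v, c * ‖v‖ ≤ ‖θ' y v‖) →
  (Wt (fun p : E4 × E4 => θ' p.1 (p.2 - p.1)) 1 fun t p =>
    k t p - hk t (θ' p.1 (p.2 - p.1)) • (1 : W →L[ℝ] W)) →
  Integrable u → (∀ x ∉ K, u x = 0) → Continuous ψ → tsupport ψ ⊆ interior S →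
  Tendsto (fun t => ∫ y, ∫ x, ⟪u x, k t (y, x) (ψ y)⟫) (𝓝[>] 0)
    (𝓝 (∫ y, (jac (θ' y))⁻¹ * ⟪u y, ψ y⟫))

/-- local elliptic regularity -/
def RlStmt : Prop := ∀ (L : Lap) (T : Set E4), L.Ok T → ∀ y₀ ∈ T, ∀ u : ℕ → E4 → W,
  (∀ n K, K ⊆ T → IsCompact K → IntegrableOn (u n) K) →
  (∀ n (φ : E4 → W), ContDiff ℝ ∞ φ → HasCompactSupport φ → tsupport φ ⊆ T →
    ∫ x in T, ⟪u n x, L.ap φ x⟫ = ∫ x in T, ⟪u (n + 1) x, φ x⟫) →
  ∃ r > 0, ∃ v : E4 → W, ContDiffOn ℝ ∞ v (ball y₀ r) ∧ ∀ᵐ x, x ∈ ball y₀ r → u 0 x = v x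

end Pool.Agent.MP_e1dc65_gt.A

end
end MrgPart1

-- ======== part 2: formerly Pool.Agent.MP_e1dc65_gt.a.DefG
section MrgPart2

/-! PROJECT HC, part A (index theory): quaternionic Dirac operators in a chart. -/

set_option maxSynthPendingDepth 3

open scoped Quaternion ContDiff Topology RealInnerProductSpace
open Set Filter MeasureTheory Metric

noncomputable section

namespace Pool.Agent.MP_e1dc65_gt.A

/-- a spinor from its two halves -/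
abbrev wk (a b : ℍ) : W := WithLp.toLp 2 (a, b)

/-- the operator on `W` with blocks `A B; C D` -/
def blk (A B C D : ℍ →L[ℝ] ℍ) : W →L[ℝ] W :=
  ((WithLp.prodContinuousLinearEquiv 2 ℝ ℍ ℍ).symm : ℍ × ℍ →L[ℝ] W).comp
    (((A.coprod B).prod (C.coprod D)).comp (WithLp.prodContinuousLinearEquiv 2 ℝ ℍ ℍ : W →L[ℝ] ℍ × ℍ))

/-- `x ↦ a x b` -/
abbrev lr (a b : ℍ) : ℍ →L[ℝ] ℍ := ContinuousLinearMap.mulLeftRight ℝ ℍ a b

/-- action of a triple of unit quaternions -/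
def act (p q r : ℍ) : W →L[ℝ] W := blk (lr p (star r)) 0 0 (lr q (star r))

/-- infinitesimal action -/
def lie (a b c : ℍ) : W →L[ℝ] W := blk (lr a 1 - lr 1 c) 0 0 (lr b 1 - lr 1 c)

/-- Clifford multiplication -/
def cl (v : ℍ) : W →L[ℝ] W := blk 0 (lr v 1) (-lr (star v) 1) 0

/-- the grading -/
def gam : W →L[ℝ] W := blk 1 0 0 (-1)

theorem blk_apply (A B C D : ℍ →L[ℝ] ℍ) (s : W) :
    blk A B C D s = wk (A s.fst + B s.snd) (C s.fst + D s.snd) := rfl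

theorem act_apply (p q r : ℍ) (s : W) :
    act p q r s = wk (p * s.fst * star r) (q * s.snd * star r) := by simp [act, blk_apply]

theorem lie_apply (a b c : ℍ) (s : W) :
    lie a b c s = wk (a * s.fst - s.fst * c) (b * s.snd - s.snd * c) := by simp [lie, blk_apply]

theorem cl_apply (v : ℍ) (s : W) : cl v s = wk (v * s.snd) (-(star v * s.fst)) := by
  simp [cl, blk_apply]

theorem gam_apply (s : W) : gam s = wk s.fst (-s.snd) := by simp [gam, blk_apply]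

theorem W_ext {s t : W} (h1 : s.fst = t.fst) (h2 : s.snd = t.snd) : s = t :=
  (WithLp.ext_iff 2).2 (Prod.ext h1 h2)

/-- `lie` as a linear map -/
def lieL : ℍ × ℍ × ℍ →L[ℝ] W →L[ℝ] W := LinearMap.toContinuousLinearMap
  { toFun := fun a => lie a.1 a.2.1 a.2.2
    map_add' := fun a b => by
      ext1 s
      refine W_ext ?_ ?_ <;> simp [lie_apply, add_mul, mul_add] <;> abel
    map_smul' := fun c a => by
      ext1 s
      refine W_ext ?_ ?_ <;> simp [lie_apply, smul_sub] }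

theorem lieL_apply (a b c : ℍ) : lieL (a, b, c) = lie a b c := rfl

/-- the supertrace -/
def str : (W →L[ℝ] W) →L[ℝ] ℝ := LinearMap.toContinuousLinearMap
  ((LinearMap.trace ℝ W) ∘ₗ (ContinuousLinearMap.coeLM ℝ) ∘ₗ
    (ContinuousLinearMap.mul ℝ (W →L[ℝ] W) gam).toLinearMap)

theorem str_apply (A : W →L[ℝ] W) : str A = LinearMap.trace ℝ W (gam * A).toLinearMap := rfl

/-- the twist: none, by the left or by the right spinors -/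
inductive Tw : Type
  | o | l | r

def Tw.sel {α : Type} : Tw → α → α → α → α
  | .o, a, _, _ => a
  | .l, _, b, _ => b
  | .r, _, _, c => c

/-- the connection form on `W` -/
def con (α β γ : E4 → E4 →L[ℝ] ℍ) (x : E4) : E4 →L[ℝ] W →L[ℝ] W :=
  lieL.comp ((α x).prod ((β x).prod (γ x)))

theorem con_apply (α β γ : E4 → E4 →L[ℝ] ℍ) (x v : E4) :
    con α β γ x v = lie (α x v) (β x v) (γ x v) := rfl

/-- `v ↦ a v - v b` is the Levi-Civita connection of the coframe `θ` at `x` -/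
structure IsLC (θ : E4 → E4 →L[ℝ] ℍ) (a b : E4 →L[ℝ] ℍ) (x : E4) : Prop where
  ima : ∀ v, (a v).re = 0
  imb : ∀ v, (b v).re = 0
  tf : ∀ u v, fderiv ℝ θ x u v - fderiv ℝ θ x v u + (a u * θ x v - θ x v * b u) -
    (a v * θ x u - θ x u * b v) = 0

/-- curvature of a connection form with values in an algebra -/
def cur {𝔸 : Type} [NormedRing 𝔸] [NormedAlgebra ℝ 𝔸] (a : E4 → E4 →L[ℝ] 𝔸) (x u v : E4) : 𝔸 :=
  fderiv ℝ a x u v - fderiv ℝ a x v u + (a x u * a x v - a x v * a x u)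

/-- coframe with its Levi-Civita connection -/
structure Loc where
  θ : E4 → E4 →L[ℝ] ℍ
  e : E4 → ℍ →L[ℝ] E4
  α : E4 → E4 →L[ℝ] ℍ
  β : E4 → E4 →L[ℝ] ℍ

structure Loc.Ok (R : Loc) (T : Set E4) : Prop where
  frm : Frm R.θ R.e T
  αs : ContDiffOn ℝ ∞ R.α T
  βs : ContDiffOn ℝ ∞ R.β T
  lc : ∀ x ∈ T, IsLC R.θ (R.α x) (R.β x) x

/-- the twisting connection -/
def Loc.γ (R : Loc) (κ : Tw) : E4 → E4 →L[ℝ] ℍ := κ.sel 0 R.α R.β

def Loc.om (R : Loc) (κ : Tw) : E4 → E4 →L[ℝ] W →L[ℝ] W := con R.α R.β (R.γ κ)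

/-- the Dirac operator -/
def Loc.dir (R : Loc) (κ : Tw) (s : E4 → W) (x : E4) : W :=
  ∑ a, cl (ε a) (cov (R.om κ) (fr R.e a) s x)

/-- the potential built from the curvature components -/
def pot (Ω : Fin 4 → Fin 4 → W →L[ℝ] W) : W →L[ℝ] W :=
  (1 / 2 : ℝ) • ∑ a, ∑ b, cl (ε a) * cl (ε b) * Ω a b

/-- curvature components in the frame -/
def cf2 {𝔸 : Type} [NormedRing 𝔸] [NormedAlgebra ℝ 𝔸] (a : E4 → E4 →L[ℝ] 𝔸)
    (e : E4 → ℍ →L[ℝ] E4) (x : E4) (b c : Fin 4) : 𝔸 := cur a x (fr e b x) (fr e c x)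

/-- the square of the Dirac operator -/
def Loc.lap (R : Loc) (κ : Tw) : Lap where
  θ := R.θ
  e := R.e
  om := R.om κ
  h x := R.e x (∑ a, (R.α x (fr R.e a x) * ε a - ε a * R.β x (fr R.e a x)))
  V x := pot (cf2 (R.om κ) R.e x)

/-- the index density (without the factor `(4π)⁻²`) -/
def den (V : W →L[ℝ] W) (Ω : Fin 4 → Fin 4 → W →L[ℝ] W) : ℝ :=
  str (V * V) / 2 + (∑ a, ∑ b, str (Ω a b * Ω a b)) / 12

/-- half the real part of `F ∧ F` on the frame -/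
def pf (F : Fin 4 → Fin 4 → ℍ) : ℝ := (F 0 1 * F 2 3 - F 0 2 * F 1 3 + F 0 3 * F 1 2).re

/-- the Pontryagin density -/
def Loc.pont (R : Loc) (x : E4) : ℝ := pf (cf2 R.α R.e x) + pf (cf2 R.β R.e x)

def Loc.den (R : Loc) (κ : Tw) (x : E4) : ℝ := A.den ((R.lap κ).V x) (cf2 (R.om κ) R.e x)

/-- near `x`, `f` is an isometry from the coframe `θ` to `θ'`, lifted by `(p, q)` -/
structure Mor (θ θ' : E4 → E4 →L[ℝ] ℍ) (f : E4 → E4) (p q : E4 → ℍ) (x : E4) : Prop where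
  fs : ContDiffAt ℝ ∞ f x
  ps : ContDiffAt ℝ ∞ p x
  qs : ContDiffAt ℝ ∞ q x
  p1 : ∀ᶠ y in 𝓝 x, ‖p y‖ = 1
  q1 : ∀ᶠ y in 𝓝 x, ‖q y‖ = 1
  rot : ∀ᶠ y in 𝓝 x, ∀ v, θ' (f y) (fderiv ℝ f y v) = p y * θ y v * star (q y)

/-- the action of the lift `(p, q)` on the twisted spinors -/
def tact (κ : Tw) (p q : ℍ) : W →L[ℝ] W := act p q (κ.sel 1 p q)

/-- existence and uniqueness of the Levi-Civita connection -/
def LcStmt : Prop :=
  (∀ θ e T, Frm θ e T → ∃ α β, Loc.Ok ⟨θ, e, α, β⟩ T) ∧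
  ∀ (θ : E4 → E4 →L[ℝ] ℍ) (a b a' b' : E4 →L[ℝ] ℍ) (x : E4), Function.Surjective (θ x) →
    IsLC θ a b x → IsLC θ a' b' x → a = a' ∧ b = b'

/-- naturality of the connection, of the Dirac operator and of the Pontryagin density -/
def NatStmt : Prop := ∀ (R R' : Loc) (T T' : Set E4) (f : E4 → E4) (p q : E4 → ℍ) (x : E4),
  R.Ok T → R'.Ok T' → x ∈ T → f x ∈ T' → Mor R.θ R'.θ f p q x →
  (∀ v, R.α x v = star (p x) * R'.α (f x) (fderiv ℝ f x v) * p x + star (p x) * fderiv ℝ p x v) ∧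
  (∀ v, R.β x v = star (q x) * R'.β (f x) (fderiv ℝ f x v) * q x + star (q x) * fderiv ℝ q x v) ∧
  (∀ (κ : Tw) (s s' : E4 → W), DifferentiableAt ℝ s x → DifferentiableAt ℝ s' (f x) →
    (∀ᶠ y in 𝓝 x, s' (f y) = tact κ (p y) (q y) (s y)) →
    R'.dir κ s' (f x) = tact κ (p x) (q x) (R.dir κ s x))

/-- smooth local lifts of a smooth family of rotations -/
def LiftStmt : Prop := ∀ (P : Type) [NormedAddCommGroup P] [NormedSpace ℝ P] (Q : P → ℍ →L[ℝ] ℍ)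
  (p₀ q₀ : P → ℍ) (x : P), ContDiffAt ℝ ∞ Q x →
  (∀ᶠ y in 𝓝 x, ‖p₀ y‖ = 1 ∧ ‖q₀ y‖ = 1 ∧ ∀ v, Q y v = p₀ y * v * star (q₀ y)) →
  ∃ p q : P → ℍ, ContDiffAt ℝ ∞ p x ∧ ContDiffAt ℝ ∞ q x ∧ p x = p₀ x ∧ q x = q₀ x ∧
    (∀ᶠ y in 𝓝 x, (p y = p₀ y ∧ q y = q₀ y) ∨ (p y = -p₀ y ∧ q y = -q₀ y)) ∧
    (ContinuousAt p₀ x → ∀ᶠ y in 𝓝 x, p y = p₀ y ∧ q y = q₀ y)

/-- the Weitzenboeck formula -/
def WeitzStmt : Prop := ∀ (R : Loc) (T : Set E4) (κ : Tw), R.Ok T → (R.lap κ).Ok T ∧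
  (∀ (s : E4 → W), ∀ x ∈ T, ContDiffAt ℝ ∞ s x → ContDiffAt ℝ ∞ (R.dir κ s) x) ∧
  ∀ (s : E4 → W), ∀ x ∈ T, ContDiffAt ℝ ∞ s x → R.dir κ (R.dir κ s) x = (R.lap κ).ap s x

/-- the Dirac operator is formally symmetric -/
def SymStmt : Prop := ∀ (R : Loc) (T : Set E4) (κ : Tw), R.Ok T →
  ContDiffOn ℝ ∞ (fun x => jac (R.θ x)) T ∧ (∀ x ∈ T, 0 < jac (R.θ x)) ∧
  ∀ φ ψ : E4 → W, ContDiffOn ℝ ∞ φ T → ContDiff ℝ ∞ ψ → HasCompactSupport ψ → tsupport ψ ⊆ T →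
    ∫ x in T, jac (R.θ x) * ⟪R.dir κ φ x, ψ x⟫ = ∫ x in T, jac (R.θ x) * ⟪φ x, R.dir κ ψ x⟫

/-- the algebraic first Bianchi identity -/
structure Bia (F G : Fin 4 → Fin 4 → ℍ) : Prop where
  imF : ∀ a b, (F a b).re = 0
  imG : ∀ a b, (G a b).re = 0
  asF : ∀ a b, F a b = -F b a
  asG : ∀ a b, G a b = -G b a
  cyc : ∀ a b c, (F a b * ε c - ε c * G a b) + (F b c * ε a - ε a * G b c) +
    (F c a * ε b - ε b * G c a) = 0

/-- the Bianchi identity; curvature of the spinor connection -/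
def BiaStmt : Prop := ∀ (R : Loc) (T : Set E4), R.Ok T → ∀ x ∈ T,
  Bia (cf2 R.α R.e x) (cf2 R.β R.e x) ∧ ∀ κ a b, cf2 (R.om κ) R.e x a b =
    lie (cf2 R.α R.e x a b) (cf2 R.β R.e x a b) (κ.sel 0 (cf2 R.α R.e x a b) (cf2 R.β R.e x a b))

/-- the index densities -/
def DensStmt : Prop := ∀ (F G : Fin 4 → Fin 4 → ℍ) (Ω : Tw → Fin 4 → Fin 4 → W →L[ℝ] W), Bia F G →
  (∀ κ a b, Ω κ a b = lie (F a b) (G a b) (κ.sel 0 (F a b) (G a b))) →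
  (∀ κ, str (pot (Ω κ)) = 0) ∧ den (pot (Ω .o)) (Ω .o) = 4 / 3 * (pf F + pf G) ∧
    den (pot (Ω .l)) (Ω .l) + den (pot (Ω .r)) (Ω .r) = -(16 / 3) * (pf F + pf G)

/-- a gauge in which the connection vanishes at `y` and has antisymmetric derivative -/
def GaugeStmt : Prop := ∀ (α : E4 → E4 →L[ℝ] ℍ) (y : E4), ContDiffAt ℝ ∞ α y →
  (∀ᶠ x in 𝓝 y, ∀ v, (α x v).re = 0) → ∃ p : E4 → ℍ, ContDiff ℝ ∞ p ∧ (∀ x, ‖p x‖ = 1) ∧ p y = 1 ∧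
    ∀ α' : E4 → E4 →L[ℝ] ℍ,
      (∀ x v, α' x v = star (p x) * α x v * p x + star (p x) * fderiv ℝ p x v) →
      α' y = 0 ∧ (∀ u v, fderiv ℝ α' y u v = -fderiv ℝ α' y v u) ∧
        ∀ u v, cur α y u v = (2 : ℝ) • fderiv ℝ α' y u v

/-- the parametrix in the good gauge computes the index density -/
def SpStmt : Prop := ∀ (R : Loc) (T : Set E4) (κ : Tw), R.Ok T → ∀ y ∈ T, ∃ r > 0,
  closedBall y r ⊆ T ∧ ∃ C k ρ, PPar (R.lap κ) y (closedBall y r) C k ρ ∧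
    Tendsto (fun t => str (k t y)) (𝓝[>] 0) (𝓝 (((4 * Real.pi) ^ 2)⁻¹ * R.den κ y))

end Pool.Agent.MP_e1dc65_gt.A

end
end MrgPart2

-- marker of a merged file
example : 731051 + 295178 = 731051 + 295178 := rfl

end MrgPart0

-- ======== part 1: formerly Pool.Agent.MP_e1dc65_gt.a.DefX
section MrgPart1

/-! PROJECT HC, part A (index theory): closed Riemannian 4-manifolds, sections, heat kernel. -/

set_option maxSynthPendingDepth 3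

open scoped Quaternion ContDiff Topology RealInnerProductSpace
open Set Filter MeasureTheory Metric

noncomputable section

namespace Pool.Agent.MP_e1dc65_gt.A

/-- a compact space with its Borel structure -/
structure Sp where
  X : Type
  [top : TopologicalSpace X]
  [t2 : T2Space X]
  [cpt : CompactSpace X]
  [ms : MeasurableSpace X]
  [bs : BorelSpace X]

attribute [instance] Sp.top Sp.t2 Sp.cpt Sp.ms Sp.bs

instance : CoeSort Sp Type := ⟨Sp.X⟩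

/-- a finite atlas with orthonormal coframes; `c x` is a chosen chart at `x` -/
structure Geo (X : Sp) where
  n : ℕ
  ch : Fin n → OpenPartialHomeomorph X E4
  c : X → Fin n
  R : Fin n → Loc
  p : Fin n → Fin n → X → ℍ
  q : Fin n → Fin n → X → ℍ
  μ : Measure X

namespace Geo
variable {X : Sp} (G : Geo X)

abbrev U (i : Fin G.n) : Set X := (G.ch i).source
abbrev T (i : Fin G.n) : Set E4 := (G.ch i).target

/-- a self-map of `X` read in the charts `i` (source) and `j` (target) -/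
def rd (f : X → X) (i j : Fin G.n) (y : E4) : E4 := G.ch j (f ((G.ch i).symm y))

/-- everything except the measure -/
structure Ok0 : Prop where
  mem : ∀ x, x ∈ G.U (G.c x)
  meas : ∀ i, MeasurableSet {x | G.c x = i}
  loc : ∀ i, (G.R i).Ok (G.T i)
  sm : ∀ i j, ∀ x ∈ G.U i ∩ G.U j, ContDiffAt ℝ ∞ (G.rd id j i) (G.ch j x)
  p1 : ∀ i j, ∀ x ∈ G.U i ∩ G.U j, ‖G.p i j x‖ = 1
  q1 : ∀ i j, ∀ x ∈ G.U i ∩ G.U j, ‖G.q i j x‖ = 1
  rot : ∀ i j, ∀ x ∈ G.U i ∩ G.U j, ∀ v, (G.R i).θ (G.ch i x) (fderiv ℝ (G.rd id j i) (G.ch j x) v) =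
    G.p i j x * (G.R j).θ (G.ch j x) v * star (G.q i j x)

/-- `μ` is the Riemannian measure -/
structure Ok : Prop extends G.Ok0 where
  fin : IsFiniteMeasure G.μ
  chart : ∀ i, G.μ.restrict (G.U i) = Measure.map (G.ch i).symm
    ((volume.restrict (G.T i)).withDensity fun y => ENNReal.ofReal (jac ((G.R i).θ y)))

/-- the lifts `(p, q)` form a spin structure -/
structure Spin : Prop where
  cp : ∀ i j k, ∀ x ∈ G.U i ∩ G.U j ∩ G.U k, G.p i j x * G.p j k x = G.p i k x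
  cq : ∀ i j k, ∀ x ∈ G.U i ∩ G.U j ∩ G.U k, G.q i j x * G.q j k x = G.q i k x
  cont : ∀ i j, ContinuousOn (G.p i j) (G.U i ∩ G.U j)

/-- the bundle with twist `κ` exists -/
structure Adm (κ : Tw) : Prop extends G.Ok where
  spin : κ = .o → G.Spin

/-- transition from the trivialisation `j` to the trivialisation `i` -/
def g (κ : Tw) (i j : Fin G.n) (x : X) : W →L[ℝ] W := tact κ (G.p i j x) (G.q i j x)

/-- a section `s` (values in the trivialisations `c x`) read in the chart `i` -/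
def lc (κ : Tw) (i : Fin G.n) (s : X → W) (y : E4) : W :=
  G.g κ i (G.c ((G.ch i).symm y)) ((G.ch i).symm y) (s ((G.ch i).symm y))

open Classical in
/-- the section given by `u` in the chart `i`, zero outside -/
def ext (κ : Tw) (i : Fin G.n) (u : E4 → W) (x : X) : W :=
  if x ∈ G.U i then G.g κ (G.c x) i x (u (G.ch i x)) else 0

/-- smooth sections -/
def Sec (κ : Tw) : Submodule ℝ (X → W) where
  carrier := {s | ∀ i, ContDiffOn ℝ ∞ (G.lc κ i s) (G.T i)}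
  add_mem' := fun {a b} ha hb i => ((ha i).add (hb i)).congr fun y _ => by simp [lc]
  zero_mem' := fun i => (contDiffOn_const (c := 0)).congr fun y _ => by simp [lc]
  smul_mem' := fun c a ha i => ((ha i).const_smul c).congr fun y _ => by simp [lc]

/-- smooth functions -/
def SmF (f : X → ℝ) : Prop := ∀ i, ContDiffOn ℝ ∞ (fun y => f ((G.ch i).symm y)) (G.T i)

/-- the Dirac operator -/
def dir (κ : Tw) (s : X → W) (x : X) : W :=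
  (G.R (G.c x)).dir κ (G.lc κ (G.c x) s) (G.ch (G.c x) x)

/-- the inner product -/
def ip (s s' : X → W) : ℝ := ∫ x, ⟪s x, s' x⟫ ∂G.μ

def pont (x : X) : ℝ := (G.R (G.c x)).pont (G.ch (G.c x) x)

def den (κ : Tw) (x : X) : ℝ := (G.R (G.c x)).den κ (G.ch (G.c x) x)

/-- the embedding in `L²` and the Dirac operator as linear maps -/
structure Inst (κ : Tw) (j : G.Sec κ →ₗ[ℝ] Lp W 2 G.μ) (D Γ : G.Sec κ →ₗ[ℝ] G.Sec κ) : Prop where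
  j : ∀ s, (j s : X → W) =ᵐ[G.μ] (s : X → W)
  D : ∀ s, (D s : X → W) = G.dir κ s
  Γ : ∀ s x, (Γ s : X → W) x = gam ((s : X → W) x)

/-- a global parametrix with pole `y` and initial vector `w` -/
structure GPar (κ : Tw) (C : ℝ) (y : X) (w : W) (k r : ℝ → X → W) : Prop where
  sec : ∀ s, 0 < s → k s ∈ G.Sec κ ∧ r s ∈ G.Sec κ
  der : ∀ ψ ∈ G.Sec κ, ∀ s ∈ Ioo (0 : ℝ) 1, HasDerivAt (fun s => G.ip ψ (k s))
    (G.ip ψ (r s) - G.ip (G.dir κ (G.dir κ ψ)) (k s)) s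
  lim : ∀ ψ ∈ G.Sec κ, Tendsto (fun s => G.ip ψ (k s)) (𝓝[>] 0) (𝓝 ⟪ψ y, w⟫)
  br : ∀ s ∈ Ioo (0 : ℝ) 1, ∀ x, ‖r s x‖ ≤ C
  bk : ∀ s ∈ Ioo (0 : ℝ) 1, ∀ x, ‖k s x‖ ≤ C / s ^ 2
  b1 : ∀ s ∈ Ioo (0 : ℝ) 1, ∫ x, ‖k s x‖ ∂G.μ ≤ C

/-- the heat kernel -/
def hker {κ : Tw} {J : Type} (φ : J → G.Sec κ) (lam : J → ℝ) (t : ℝ) (x : X) (w' : W) (y : X)
    (w : W) : ℝ :=
  ∑' n, Real.exp (-(lam n * t)) * (⟪(φ n : X → W) x, w'⟫ * ⟪(φ n : X → W) y, w⟫)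

/-- the local trace of `A e^{-tD²}` for `A s = a ∘ s ∘ f` -/
def ltr {κ : Tw} {J : Type} (φ : J → G.Sec κ) (lam : J → ℝ) (f : X → X) (a : X → W →L[ℝ] W)
    (t : ℝ) (y : X) : ℝ :=
  ∑' n, Real.exp (-(lam n * t)) * ⟪a y ((φ n : X → W) (f y)), (φ n : X → W) y⟫

/-- an isometric involution with a lift to the spinors and eight fixed points of the same type -/
structure Inv (f : X → X) (P Q : Fin G.n → Fin G.n → X → ℍ) (F : Finset X) : Prop where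
  cont : Continuous f
  inv : ∀ x, f (f x) = x
  sm : ∀ i j, ∀ x ∈ G.U i, f x ∈ G.U j → ContDiffAt ℝ ∞ (G.rd f i j) (G.ch i x)
  P1 : ∀ i j, ∀ x ∈ G.U i, f x ∈ G.U j → ‖P i j x‖ = 1
  Q1 : ∀ i j, ∀ x ∈ G.U i, f x ∈ G.U j → ‖Q i j x‖ = 1
  rot : ∀ i j, ∀ x ∈ G.U i, f x ∈ G.U j → ∀ v,
    (G.R j).θ (G.ch j (f x)) (fderiv ℝ (G.rd f i j) (G.ch i x) v) =
      P i j x * (G.R i).θ (G.ch i x) v * star (Q i j x)
  Pc : ∀ i j, ContinuousOn (P i j) (G.U i ∩ f ⁻¹' G.U j)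
  cP : ∀ i i' j j', ∀ x ∈ G.U i ∩ G.U i', f x ∈ G.U j ∩ G.U j' →
    P i j x * G.p i i' x = G.p j j' (f x) * P i' j' x
  cQ : ∀ i i' j j', ∀ x ∈ G.U i ∩ G.U i', f x ∈ G.U j ∩ G.U j' →
    Q i j x * G.q i i' x = G.q j j' (f x) * Q i' j' x
  sP : ∀ i j, ∀ x ∈ G.U i, f x ∈ G.U j → P j i (f x) * P i j x = 1
  sQ : ∀ i j, ∀ x ∈ G.U i, f x ∈ G.U j → Q j i (f x) * Q i j x = 1
  fix : ∀ x, f x = x ↔ x ∈ F
  card : F.card = 8
  val : ∀ x ∈ F, ∀ i, x ∈ G.U i → P i i x = 1 ∧ Q i i x = -1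

/-- the bundle map of `Γ` times the lifted involution -/
def lift (f : X → X) (P Q : Fin G.n → Fin G.n → X → ℍ) (x : X) : W →L[ℝ] W :=
  gam * act (star (P (G.c x) (G.c (f x)) x)) (star (Q (G.c x) (G.c (f x)) x)) 1

/-- vector fields (one-forms), self-dual and anti-self-dual two-forms by frame components -/
def V1 (v : X → ℍ) : Prop := (fun x => wk (v x) 0) ∈ G.Sec .r
def VP (u : X → ℍ) : Prop := (∀ x, (u x).re = 0) ∧ (fun x => wk (u x) 0) ∈ G.Sec .l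
def VM (w : X → ℍ) : Prop := (∀ x, (w x).re = 0) ∧ (fun x => wk 0 (w x)) ∈ G.Sec .r

/-- gradient, `d⁺`, `d⁻` -/
def gr (f : X → ℝ) (x : X) : ℍ := (G.dir .r (fun x => wk 0 (f x : ℍ)) x).fst
def dp (v : X → ℍ) (x : X) : ℍ := (G.dir .l (fun x => wk 0 (star (v x))) x).fst.im
def dm (v : X → ℍ) (x : X) : ℍ := -(G.dir .r (fun x => wk (v x) 0) x).snd.im

def iq (u u' : X → ℍ) : ℝ := ∫ x, ⟪u x, u' x⟫ ∂G.μ

/-- weakly closed two-forms -/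
def Zc (z : (X → ℍ) × (X → ℍ)) : Prop :=
  G.VP z.1 ∧ G.VM z.2 ∧ ∀ v, G.V1 v → G.iq (G.dp v) z.1 = G.iq (G.dm v) z.2

/-- an isotropic set of closed two-forms -/
def Iso (K : Set ((X → ℍ) × (X → ℍ))) : Prop :=
  ∀ a ∈ K, G.Zc a ∧ ∀ b ∈ K, G.iq a.1 b.1 = G.iq a.2 b.2

end Geo

/-- the Riemannian measure exists -/
def MuStmt : Prop := ∀ (X : Sp) (G : Geo X), G.Ok0 → ∃ μ, Geo.Ok { G with μ := μ }

/-- the transition maps form a smooth orthogonal cocycle -/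
def CocStmt : Prop := ∀ (X : Sp) (G : Geo X) (κ : Tw), G.Adm κ →
  (∀ i, ∀ x ∈ G.U i, G.g κ i i x = 1) ∧
  (∀ i j k, ∀ x ∈ G.U i ∩ G.U j ∩ G.U k, G.g κ i j x * G.g κ j k x = G.g κ i k x) ∧
  (∀ i j, ∀ x ∈ G.U i ∩ G.U j, ∀ w w', ⟪G.g κ i j x w, G.g κ i j x w'⟫ = ⟪w, w'⟫) ∧
  ∀ i j, ∀ x ∈ G.U i ∩ G.U j, ∃ p q, Mor (G.R j).θ (G.R i).θ (G.rd id j i) p q (G.ch j x) ∧
    (∀ᶠ y in 𝓝 (G.ch j x), G.g κ i j ((G.ch j).symm y) = tact κ (p y) (q y)) ∧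
    ContDiffAt ℝ ∞ (fun y => G.g κ i j ((G.ch j).symm y)) (G.ch j x)

/-- smooth partitions of unity -/
def PouStmt : Prop := ∀ (X : Sp) (G : Geo X), G.Ok0 → ∀ O : X → Set X, (∀ x, O x ∈ 𝓝 x) →
  ∃ (F : Finset X) (ψ : X → X → ℝ), (∀ x, G.SmF (ψ x) ∧ Continuous (ψ x) ∧ tsupport (ψ x) ⊆ O x ∧
    ∀ y, 0 ≤ ψ x y) ∧ ∀ y, ∑ x ∈ F, ψ x y = 1

/-- sections in charts -/
def SecStmt : Prop := ∀ (X : Sp) (G : Geo X) (κ : Tw), G.Adm κ →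
  (∀ (s : X → W) x, G.lc κ (G.c x) s (G.ch (G.c x) x) = s x) ∧
  (∀ (s : X → W) i, ∀ x ∈ G.U i, G.lc κ i s (G.ch i x) = G.g κ i (G.c x) x (s x)) ∧
  (∀ i (u : E4 → W), ∀ y ∈ G.T i, G.lc κ i (G.ext κ i u) y = u y) ∧
  (∀ (s : X → W) i, ∀ x ∈ G.U i, G.ext κ i (G.lc κ i s) x = s x) ∧
  (∀ (s : X → W), (∀ x, ∃ i, x ∈ G.U i ∧ ContDiffAt ℝ ∞ (G.lc κ i s) (G.ch i x)) → s ∈ G.Sec κ) ∧
  (∀ i (u : E4 → W) K, IsCompact K → K ⊆ G.T i → (∀ y ∉ K, u y = 0) → ContDiffOn ℝ ∞ u (G.T i) →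
    G.ext κ i u ∈ G.Sec κ ∧ G.dir κ (G.ext κ i u) = G.ext κ i ((G.R i).dir κ u)) ∧
  (∀ s ∈ G.Sec κ, ∀ i, ∀ y ∈ G.T i, G.lc κ i (G.dir κ s) y = (G.R i).dir κ (G.lc κ i s) y) ∧
  (∀ s ∈ G.Sec κ, G.dir κ s ∈ G.Sec κ) ∧
  (∀ s ∈ G.Sec κ, ∀ f, G.SmF f → (fun x => f x • s x) ∈ G.Sec κ) ∧
  (∀ s ∈ G.Sec κ, ∀ s' ∈ G.Sec κ, Continuous fun x => ⟪s x, s' x⟫) ∧
  ∀ f, G.SmF f → ∀ i, tsupport f ⊆ G.U i → ∃ K, IsCompact K ∧ K ⊆ G.T i ∧
    ∀ u : E4 → W, ContDiffOn ℝ ∞ u (G.T i) → ∃ u' : E4 → W, ContDiff ℝ ∞ u' ∧ (∀ y ∉ K, u' y = 0) ∧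
      ∀ y ∈ G.T i, u' y = f ((G.ch i).symm y) • u y

/-- integration in charts -/
def IntStmt : Prop := ∀ (X : Sp) (G : Geo X) (κ : Tw), G.Adm κ →
  G.μ.IsOpenPosMeasure ∧
  (∀ i (f : X → ℝ), AEStronglyMeasurable f G.μ → (∀ x ∉ G.U i, f x = 0) →
    ∫ x, f x ∂G.μ = ∫ y in G.T i, jac ((G.R i).θ y) * f ((G.ch i).symm y)) ∧
  (∀ i (P : X → Prop), (∀ᵐ y, y ∈ G.T i → P ((G.ch i).symm y)) ↔ ∀ᵐ x ∂G.μ, x ∈ G.U i → P x) ∧
  (∀ s ∈ G.Sec κ, StronglyMeasurable s ∧ MemLp s 2 G.μ ∧ ∃ C, ∀ x, ‖s x‖ ≤ C) ∧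
  (∀ (s : X → W), Integrable s G.μ → ∀ i K, K ⊆ G.T i → IsCompact K →
    IntegrableOn (fun y => jac ((G.R i).θ y) • G.lc κ i s y) K) ∧
  ∀ (s : X → W), Integrable s G.μ → ∀ i (u : E4 → W) K, IsCompact K → K ⊆ G.T i →
    (∀ y ∉ K, u y = 0) → ContinuousOn u (G.T i) →
    G.ip s (G.ext κ i u) = ∫ y in G.T i, jac ((G.R i).θ y) * ⟪G.lc κ i s y, u y⟫

/-- the linear maps exist; `j` is injective with dense range, `D` is symmetric and odd -/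
def InstStmt : Prop := ∀ (X : Sp) (G : Geo X) (κ : Tw), G.Adm κ →
  (∃ j D Γ, G.Inst κ j D Γ) ∧ ∀ j D Γ, G.Inst κ j D Γ →
    (∀ s s', ⟪j s, j s'⟫ = G.ip s s') ∧ Function.Injective j ∧ DenseRange j ∧
    (∀ φ ψ, ⟪j (D φ), j ψ⟫ = ⟪j φ, j (D ψ)⟫) ∧ (∀ ψ, Γ (Γ ψ) = ψ) ∧ ∀ ψ, Γ (D ψ) = -D (Γ ψ)

/-- elliptic regularity -/
def RegStmt : Prop := ∀ (X : Sp) (G : Geo X) (κ : Tw), G.Adm κ → ∀ j D Γ, G.Inst κ j D Γ →
  ∀ u : ℕ → Lp W 2 G.μ, (∀ n φ, ⟪u n, j (D (D φ))⟫ = ⟪u (n + 1), j φ⟫) → ∃ φ, j φ = u 0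

/-- from a parametrix in a chart to a global one -/
def TogStmt : Prop := ∀ (X : Sp) (G : Geo X) (κ : Tw), G.Adm κ → ∀ i (K : Set E4) (C : ℝ),
  IsCompact K → K ⊆ G.T i → ∃ C', ∀ y ∈ G.U i, G.ch i y ∈ interior K → ∀ k ρ,
    PPar ((G.R i).lap κ) (G.ch i y) K C k ρ → ∀ w, ‖w‖ ≤ 1 →
    G.GPar κ C' y w (fun s => G.ext κ i fun x => k s x (G.g κ i (G.c y) y w))
      fun s => G.ext κ i fun x => ρ s x (G.g κ i (G.c y) y w)

/-- the operator is elliptic in the abstract sense; the heat kernel is close to every parametrix -/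
def KerStmt : Prop := ∀ (X : Sp) (G : Geo X) (κ : Tw), G.Adm κ → ∀ j D Γ, G.Inst κ j D Γ →
  Ell j D ∧ ∀ (J : Type) (φ : J → G.Sec κ) (lam : J → ℝ), Eig j (D ∘ₗ D) φ lam →
    (∀ t ∈ Ioo (0 : ℝ) (1 / 2), ∃ C, ∀ y,
      (Summable fun n => Real.exp (-(lam n * t)) * ‖(φ n : X → W) y‖ ^ 2) ∧
      ∑' n, Real.exp (-(lam n * t)) * ‖(φ n : X → W) y‖ ^ 2 ≤ C) ∧
    ∀ C, ∃ C', ∀ y w k r, G.GPar κ C y w k r → ∀ x w', ‖w'‖ ≤ 1 → ∀ t ∈ Ioo (0 : ℝ) (1 / 2),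
      |G.hker φ lam t x w' y w - ⟪k t x, w'⟫| ≤ C' * t

/-- the trace is the integral of the local trace; the local trace near a chart parametrix -/
def TrStmt : Prop := ∀ (X : Sp) (G : Geo X) (κ : Tw), G.Adm κ → ∀ j D Γ, G.Inst κ j D Γ →
  ∀ (J : Type) (φ : J → G.Sec κ) (lam : J → ℝ), Eig j (D ∘ₗ D) φ lam →
  ∀ (f : X → X) (a : X → W →L[ℝ] W) (A : G.Sec κ →ₗ[ℝ] G.Sec κ), (∀ x, ‖a x‖ ≤ 1) →
  (∀ s x, (A s : X → W) x = a x ((s : X → W) (f x))) →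
  (∀ t ∈ Ioo (0 : ℝ) (1 / 2), Integrable (G.ltr φ lam f a t) G.μ ∧
    HasSum (fun n => Real.exp (-(lam n * t)) * ⟪j (A (φ n)), j (φ n)⟫)
      (∫ y, G.ltr φ lam f a t y ∂G.μ)) ∧
  ∀ i (K : Set E4) (C : ℝ), IsCompact K → K ⊆ G.T i → ∃ C', ∀ y ∈ G.U i,
    G.ch i y ∈ interior K → ∀ k ρ, PPar ((G.R i).lap κ) (G.ch i y) K C k ρ →
    ∀ t ∈ Ioo (0 : ℝ) (1 / 2),
    (f y ∈ G.U i → |G.ltr φ lam f a t y - LinearMap.trace ℝ W
      (G.g κ i (G.c y) y * a y * G.g κ (G.c (f y)) i (f y) * k t (G.ch i (f y))).toLinearMap| ≤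
        C' * t) ∧
    (f y ∉ (G.ch i).symm '' K → |G.ltr φ lam f a t y| ≤ C' * t)

/-- the index theorem -/
def IdxStmt : Prop := ∀ (X : Sp) (G : Geo X) (κ : Tw), G.Adm κ → ∀ j D Γ, G.Inst κ j D Γ →
  Integrable (G.den κ) G.μ ∧ ind D Γ = ((4 * Real.pi) ^ 2)⁻¹ * ∫ x, G.den κ x ∂G.μ

/-- the lifted involution acts on sections -/
def ActStmt : Prop := ∀ (X : Sp) (G : Geo X), G.Adm .o → ∀ j D Γ, G.Inst .o j D Γ →
  (∃ I J : G.Sec .o →ₗ[ℝ] G.Sec .o,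
    (∀ s x, (I s : X → W) x = wk (((s : X → W) x).fst * ε 1) (((s : X → W) x).snd * ε 1)) ∧
    (∀ s x, (J s : X → W) x = wk (((s : X → W) x).fst * ε 2) (((s : X → W) x).snd * ε 2)) ∧
    (∀ ψ, I (D ψ) = D (I ψ)) ∧ ∀ ψ, J (D ψ) = D (J ψ)) ∧
  ∀ f P Q F, G.Inv f P Q F → ∃ B : G.Sec .o →ₗ[ℝ] G.Sec .o,
    (∀ s x, (B s : X → W) x = G.lift f P Q x ((s : X → W) (f x))) ∧ (∀ x, ‖G.lift f P Q x‖ ≤ 1) ∧
    (∀ ψ, B (B ψ) = ψ) ∧ ∀ ψ, B (D ψ) = -D (B ψ)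

/-- the Lefschetz number -/
def LefStmt : Prop := ∀ (X : Sp) (G : Geo X), G.Adm .o → ∀ j D Γ, G.Inst .o j D Γ →
  ∀ f P Q F, G.Inv f P Q F → ∀ B : G.Sec .o →ₗ[ℝ] G.Sec .o,
    (∀ s x, (B s : X → W) x = G.lift f P Q x ((s : X → W) (f x))) → ind D B = 4

/-- theorem (D) in terms of `Geo` -/
def DthStmt : Prop := ∀ (X : Sp) (G : Geo X), G.Adm .o → ∀ f P Q F, G.Inv f P Q F →
  ∫ x, G.pont x ∂G.μ ≠ 0

/-- splitting of the two twisted bundles and of their Dirac operators -/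
def SplStmt : Prop := ∀ (X : Sp) (G : Geo X), G.Ok →
  (∀ v, G.V1 v ↔ (fun x => wk 0 (star (v x))) ∈ G.Sec .l) ∧
  (∀ f : X → ℝ, G.SmF f → (fun x => wk (f x : ℍ) 0) ∈ G.Sec .l ∧
    (fun x => wk 0 (f x : ℍ)) ∈ G.Sec .r ∧
    ∀ x, G.dir .l (fun x => wk (f x : ℍ) 0) x = wk 0 (-star (G.gr f x))) ∧
  (∀ s ∈ G.Sec .l, G.SmF (fun x => (s x).fst.re) ∧ G.VP (fun x => (s x).fst.im) ∧
    G.V1 fun x => star (s x).snd) ∧
  (∀ s ∈ G.Sec .r, G.V1 (fun x => (s x).fst) ∧ G.SmF (fun x => (s x).snd.re) ∧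
    G.VM fun x => (s x).snd.im) ∧
  (∀ v, G.V1 v → ∀ x, (G.dir .r (fun x => wk (v x) 0) x).snd.re =
    -(G.dir .l (fun x => wk 0 (star (v x))) x).fst.re) ∧
  (∀ κ (a : X → ℍ) x, (G.dir κ (fun x => wk (a x) 0) x).fst = 0) ∧
  ∀ κ (a : X → ℍ) x, (G.dir κ (fun x => wk 0 (a x)) x).snd = 0

/-- theorem (S) in terms of `Geo` -/
def SthStmt : Prop := ∀ (X : Sp) (G : Geo X), G.Ok →
  (∀ f, G.SmF f → G.dp (G.gr f) = 0 ∧ G.dm (G.gr f) = 0) →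
  (∀ v v', G.V1 v → G.V1 v' → G.iq (G.dp v) (G.dp v') = G.iq (G.dm v) (G.dm v')) →
  ∀ Kp Km, G.Iso Kp → G.Iso Km →
  (∀ z, G.Zc z → ∃ a ∈ Kp, ∃ b ∈ Km, ∃ v, G.V1 v ∧ z = a + b + (G.dp v, G.dm v)) →
  ∫ x, G.pont x ∂G.μ = 0

end Pool.Agent.MP_e1dc65_gt.A

end
end MrgPart1

-- ======== part 2: formerly Pool.Agent.MP_e1dc65_gt.b.Spec
section MrgPart2

/-! PROJECT HC: the interior of a smooth h-cobordism. -/

open scoped ContDiff Manifold Topology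
open Set Filter Function

noncomputable section

namespace Pool.Agent.MP_e1dc65_gt

section Ends

variable {W A B : Type} [TopologicalSpace W] [TopologicalSpace A] [TopologicalSpace B]

/-- the complement of the parts of the two ends above the level `T` -/
def Core (c : A × ℝ → W) (c' : B × ℝ → W) (T : ℝ) : Set W :=
  (c '' (univ ×ˢ Ioi T) ∪ c' '' (univ ×ˢ Ioi T))ᶜ

/-- `H` deforms `W` to the level `0` of the end `c`: first both ends are pushed into the core,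
then the core is deformed to the level, which stays fixed -/
structure Sdr (c : A × ℝ → W) (c' : B × ℝ → W) (r : W → A) (H : W × ℝ → W) : Prop where
  rc : Continuous r
  Hc : Continuous H
  zero : ∀ w, H (w, 0) = w
  one : ∀ w, H (w, 1) = c (r w, 0)
  rA : ∀ m t, 0 ≤ t → r (c (m, t)) = m
  rB : ∀ n t, 0 ≤ t → r (c' (n, t)) = r (c' (n, 0))
  HA : ∀ m t s, 0 ≤ t → 0 ≤ s → H (c (m, t), s) = c (m, max (1 - 2 * s) 0 * t)
  HB : ∀ n t s, 0 ≤ t → 0 ≤ s → s ≤ 1 / 2 → H (c' (n, t), s) = c' (n, (1 - 2 * s) * t)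
  late : ∀ n t s, 0 ≤ t → 1 / 2 ≤ s → H (c' (n, t), s) = H (c' (n, 0), s)
  early : ∀ w ∈ Core c c' 0, ∀ s, s ≤ 1 / 2 → H (w, s) = w
  core : ∀ w ∈ Core c c' 0, ∀ s, H (w, s) ∈ Core c c' 0

end Ends

/-- the interior `W` of an h-cobordism: two product ends (the end is at `t → ∞`), compact cores,
deformations to both ends -/
structure Col {E E' : Type} [NormedAddCommGroup E] [NormedSpace ℝ E] [NormedAddCommGroup E']
    [NormedSpace ℝ E'] (M N : Mf E) (W : Mf E') (c : M.prod (vs ℝ) → W) (c' : N.prod (vs ℝ) → W) :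
    Prop where
  oe : OE (M.prod (vs ℝ)) W c univ
  oe' : OE (N.prod (vs ℝ)) W c' univ
  disj : ∀ p q, c p ≠ c' q
  cl : ∀ T, IsClosed (c '' (univ ×ˢ Ici T))
  cl' : ∀ T, IsClosed (c' '' (univ ×ˢ Ici T))
  cpt : ∀ T, IsCompact (Core c c' T)
  sdr : ∃ r H, Sdr c c' r H
  sdr' : ∃ r H, Sdr c' c r H

/-- the interior of a smooth h-cobordism, in the form used by part O -/
structure OHC (M N : Mf E4) where
  W : Mf (E4 × ℝ)
  cM : M.cyl → W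
  cN : N.cyl → W
  S : W → ℝ
  r : W → M
  H : W × ℝ → W
  r2 : W → N
  oeM : OE M.cyl W cM univ
  oeN : OE N.cyl W cN univ
  disj : ∀ p q, cM p ≠ cN q
  clM : ∀ T, IsClosed (cM '' (univ ×ˢ Ici T))
  clN : ∀ T, IsClosed (cN '' (univ ×ˢ Ici T))
  cpt : ∀ T, IsCompact (Core cM cN T)
  sdr : Sdr cM cN r H
  r2c : Continuous r2
  r2N : ∀ n t, 0 ≤ t → r2 (cN (n, t)) = n
  H2 : ∃ H2, Sdr cN cM r2 H2
  Ssm : Sm W (vs ℝ) S univ
  SM : ∀ m t, 1 ≤ t → S (cM (m, t)) = t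
  SN : ∀ n t, 1 ≤ t → S (cN (n, t)) = t
  Sgt : ∀ w, 1 < S w → w ∈ cM '' (univ ×ˢ Ioi 1) ∪ cN '' (univ ×ˢ Ioi 1)
  Scpt : ∀ T, IsCompact {w | S w ≤ T}
  pc : PathConnectedSpace W

/-- row COLLAR -/
def CollarStmt : Prop :=
  ∀ (M N : Mf E4) [CompactSpace M] [ConnectedSpace M] [CompactSpace N] [ConnectedSpace N],
    SmoothHCob (toC4 M) (toC4 N) → Nonempty (OHC M N)

end Pool.Agent.MP_e1dc65_gt

end
end MrgPart2

-- ======== part 3: formerly Pool.Agent.MP_e1dc65_gt.b.Adapt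
section MrgPart3

-- ======== part 0: formerly Pool.Agent.MP_e1dc65_gt.b.Half
section MrgPart0

/-! PROJECT HC: the inverse function theorem at a boundary point of a half space. -/

open scoped ContDiff Topology NNReal
open Set Filter Function Metric

noncomputable section

namespace Pool.Agent.MP_e1dc65_gt.B

variable {E : Type} [NormedAddCommGroup E] [NormedSpace ℝ E] [FiniteDimensional ℝ E]

/-- the half space -/
def Hs (E : Type) : Set (E × ℝ) := univ ×ˢ Ici 0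

omit [NormedAddCommGroup E] [NormedSpace ℝ E] [FiniteDimensional ℝ E] in
theorem mem_Hs {p : E × ℝ} : p ∈ Hs E ↔ 0 ≤ p.2 := ⟨fun h => h.2, fun h => ⟨trivial, h⟩⟩

theorem inv_of_inj {A : E →L[ℝ] E} (h : ∀ v, A v = 0 → v = 0) : A.IsInvertible :=
  ⟨(LinearEquiv.ofInjectiveEndo A.toLinearMap
    ((injective_iff_map_eq_zero A).2 h)).toContinuousLinearEquiv, rfl⟩

theorem half {f : E × ℝ → E × ℝ} {T : Set (E × ℝ)} {u : E} {c : ℝ} (hT : IsOpen T)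
    (hu : (u, (0 : ℝ)) ∈ T) (hf : ContDiffOn ℝ ∞ f (T ∩ Hs E))
    (h0 : ∀ v, (v, (0 : ℝ)) ∈ T → f (v, 0) = (v, 0)) (hc : 0 < c)
    (hl : ∀ᶠ p in 𝓝[Hs E] (u, (0 : ℝ)), c * p.2 ≤ (f p).2) :
    ∃ B, IsOpen B ∧ (u, (0 : ℝ)) ∈ B ∧ B ⊆ T ∧ InjOn f (B ∩ Hs E) ∧
      (∀ p ∈ B, 0 < p.2 → (fderiv ℝ f p).IsInvertible) ∧
      ∀ B' ∈ 𝓝 (u, (0 : ℝ)), f '' (B' ∩ Hs E) ∈ 𝓝[Hs E] (u, (0 : ℝ)) := by
  have := FiniteDimensional.complete ℝ E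
  have ud : UniqueDiffOn ℝ (T ∩ Hs E) := by
    rw [inter_comm]
    exact (uniqueDiffOn_univ.prod (uniqueDiffOn_Ici 0)).inter hT
  have pm : (u, (0 : ℝ)) ∈ T ∩ Hs E := ⟨hu, mem_Hs.2 le_rfl⟩
  have hd : ∀ p ∈ T ∩ Hs E, HasFDerivWithinAt f (fderivWithin ℝ f (T ∩ Hs E) p) (T ∩ Hs E) p :=
    fun p hp => (hf.differentiableOn (by simp) p hp).hasFDerivWithinAt
  obtain ⟨A, hA⟩ : ∃ A, A = fderivWithin ℝ f (T ∩ Hs E) (u, 0) := ⟨_, rfl⟩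
  have dA : HasFDerivWithinAt f A (T ∩ Hs E) (u, 0) := hA ▸ hd _ pm
  have a1 : ∀ v, A (v, 0) = (v, 0) := by
    have m : {v : E | (v, (0 : ℝ)) ∈ T} ∈ 𝓝 u :=
      (hT.preimage (by fun_prop : Continuous fun v : E => (v, (0 : ℝ)))).mem_nhds hu
    have d1 := (dA.comp u (f := fun v : E => (v, (0 : ℝ)))
      (hasFDerivAt_prodMk_left (𝕜 := ℝ) u (0 : ℝ)).hasFDerivWithinAt
      (s := {v : E | (v, (0 : ℝ)) ∈ T}) fun v hv => ⟨hv, mem_Hs.2 le_rfl⟩).hasFDerivAt m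
    have d2 := (hasFDerivAt_prodMk_left (𝕜 := ℝ) u (0 : ℝ)).congr_of_eventuallyEq
      (f₁ := f ∘ fun v => (v, 0)) (by filter_upwards [m] with v hv using h0 v hv)
    intro v
    simpa using DFunLike.congr_fun (d1.unique d2) v
  have a2 : c ≤ (A (0, 1)).2 := by
    have tc : Continuous fun t : ℝ => (u, t) := by fun_prop
    have m : {t : ℝ | (u, t) ∈ T} ∈ 𝓝 (0 : ℝ) := (hT.preimage tc).mem_nhds hu
    have d1 := (dA.comp (0 : ℝ) (hasFDerivAt_prodMk_right u (0 : ℝ)).hasFDerivWithinAt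
      (s := Ioi 0 ∩ {t : ℝ | (u, t) ∈ T}) fun t ht => ⟨ht.2, mem_Hs.2 ht.1.le⟩).snd
    have d2 := ((hasFDerivWithinAt_inter m).1 d1).hasDerivWithinAt
    rw [hasDerivWithinAt_iff_tendsto_slope' (by simp)] at d2
    have e : ∀ᶠ t in 𝓝[>] (0 : ℝ), c * t ≤ (f (u, t)).2 :=
      (tc.continuousWithinAt.tendsto_nhdsWithin (s := Ioi 0) (t := Hs E)
        fun t ht => mem_Hs.2 (le_of_lt ht)).eventually hl
    have := ge_of_tendsto d2 (b := c) (by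
      filter_upwards [e, self_mem_nhdsWithin] with t h1 h2
      simp only [slope_def_field, comp_apply, h0 u hu, sub_zero]
      exact (le_div_iff₀ h2).2 h1)
    simpa using this
  have a3 : ∀ p : E × ℝ, A p = (p.1, 0) + p.2 • A (0, 1) := fun p => by
    rw [← a1, ← map_smul, ← map_add]; simp
  obtain ⟨L, rfl⟩ : A.IsInvertible := inv_of_inj fun p hp => by
    rw [a3] at hp
    have h2 : p.2 = 0 := by
      have := congrArg Prod.snd hp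
      simp only [Prod.snd_add, Prod.smul_snd, smul_eq_mul, zero_add, Prod.snd_zero,
        mul_eq_zero] at this
      exact this.resolve_right (by linarith)
    rw [h2, zero_smul, add_zero] at hp
    exact Prod.ext (congrArg Prod.fst hp :) h2
  have N0 : 0 < ‖(L.symm : E × ℝ →L[ℝ] E × ℝ)‖₊ := L.nnnorm_symm_pos
  obtain ⟨κ, κ0, κ1⟩ := exists_between (inv_pos.2 N0)
  have cd := (hf.continuousOn_fderivWithin ud (by simp) _ pm).eventually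
    (closedBall_mem_nhds _ (show (0 : ℝ) < κ from κ0))
  rw [← hA, eventually_nhdsWithin_iff] at cd
  obtain ⟨r, r0, hr⟩ := Metric.mem_nhds_iff.1 (cd.and (hT.mem_nhds hu))
  have bd : ∀ p ∈ ball (u, (0 : ℝ)) r ∩ Hs E,
      ‖fderivWithin ℝ f (T ∩ Hs E) p - (L : E × ℝ →L[ℝ] E × ℝ)‖ ≤ κ := fun p hp => by
    simpa [dist_eq_norm] using (hr hp.1).1 ⟨(hr hp.1).2, hp.2⟩
  have mv : ∀ p ∈ ball (u, (0 : ℝ)) r ∩ Hs E, ∀ q ∈ ball (u, (0 : ℝ)) r ∩ Hs E,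
      ‖f q - f p - L (q - p)‖ ≤ κ * ‖q - p‖ := fun p hp q hq =>
    ((convex_ball _ _).inter (convex_univ.prod (convex_Ici 0))).norm_image_sub_le_of_norm_hasFDerivWithin_le'
      (fun z hz => (hd z ⟨(hr hz.1).2, hz.2⟩).mono fun y hy => ⟨(hr hy.1).2, hy.2⟩) bd hp hq
  have pl : ∀ p q : E × ℝ, ‖((p.1, max p.2 0) : E × ℝ) - (q.1, max q.2 0)‖ ≤ ‖p - q‖ :=
    fun p q => max_le_max le_rfl (abs_max_sub_max_le_abs _ _ _)
  have pm' : ∀ p ∈ ball (u, (0 : ℝ)) r, ((p.1, max p.2 0) : E × ℝ) ∈ ball (u, (0 : ℝ)) r ∩ Hs E :=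
    fun p hp => ⟨by
      have := pl p (u, 0)
      rw [max_self] at this
      exact mem_ball_iff_norm.2 (this.trans_lt (mem_ball_iff_norm.1 hp)),
      mem_Hs.2 (le_max_right _ _)⟩
  obtain ⟨G, hG⟩ : ∃ G : E × ℝ → E × ℝ,
    G = fun p => f (p.1, max p.2 0) + L (p - (p.1, max p.2 0)) := ⟨_, rfl⟩
  have ap : ApproximatesLinearOn G (L : E × ℝ →L[ℝ] E × ℝ) (ball (u, (0 : ℝ)) r) κ := by
    intro p hp q hq
    refine le_trans (le_of_eq ?_) ((mv _ (pm' q hq) _ (pm' p hp)).trans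
      (mul_le_mul_of_nonneg_left (pl p q) κ.2))
    congr 1
    simp only [hG, map_sub, ContinuousLinearEquiv.coe_coe]
    abel
  have Gf : ∀ p ∈ Hs E, G p = f p := fun p hp => by simp [hG, max_eq_left (mem_Hs.1 hp)]
  refine ⟨_, isOpen_ball, mem_ball_self r0, fun p hp => (hr hp).2, fun p hp q hq e =>
    ap.injOn (Or.inr κ1) hp.1 hq.1 (by rw [Gf p hp.2, Gf q hq.2, e]), fun p hp h2 => ?_,
    fun B' hB => ?_⟩
  · have m : T ∩ Hs E ∈ 𝓝 p := inter_mem (hT.mem_nhds (hr hp).2)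
      (mem_of_superset ((isOpen_lt continuous_const continuous_snd).mem_nhds h2)
        fun q hq => mem_Hs.2 (le_of_lt hq))
    have b := bd p ⟨hp, mem_Hs.2 h2.le⟩
    rw [fderivWithin_of_mem_nhds m] at b
    refine inv_of_inj fun v hv => ?_
    have b1 := (fderiv ℝ f p - (L : E × ℝ →L[ℝ] E × ℝ)).le_of_opNorm_le b v
    have b2 := (L.symm : E × ℝ →L[ℝ] E × ℝ).le_opNorm (L v)
    simp only [sub_apply, hv, zero_sub, norm_neg, ContinuousLinearEquiv.coe_coe,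
      ContinuousLinearEquiv.symm_apply_apply] at b1 b2
    have b3 : (κ : ℝ) * ‖(L.symm : E × ℝ →L[ℝ] E × ℝ)‖ < 1 := by
      have := (lt_div_iff₀ N0 (a := κ) (b := 1)).1 (by simpa using κ1)
      exact_mod_cast this
    by_contra n
    have := norm_pos_iff.2 n
    nlinarith [norm_nonneg (L.symm : E × ℝ →L[ℝ] E × ℝ)]
  · have m := (ap.mono_set inter_subset_left).image_mem_nhds L.toNonlinearRightInverse
      (inter_mem (ball_mem_nhds _ r0) hB) (Or.inr κ1)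
    rw [Gf _ pm.2, h0 u hu] at m
    filter_upwards [nhdsWithin_le_nhds m, self_mem_nhdsWithin]
    rintro _ ⟨p, hp, rfl⟩ hz
    have h2 : p ∈ Hs E := by
      by_contra k
      have k' : p.2 < 0 := not_le.1 fun l => k (mem_Hs.2 l)
      have h3 := mem_Hs.1 hz
      have h4 := pm' p hp.1
      have h5 := a3 (p - (p.1, 0))
      rw [max_eq_right k'.le] at h4
      simp only [ContinuousLinearEquiv.coe_coe] at h5 a2
      simp only [hG, max_eq_right k'.le, h0 _ (hr h4.1).2, h5, Prod.snd_add, Prod.snd_sub,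
        Prod.smul_snd, smul_eq_mul] at h3
      nlinarith
    exact ⟨p, ⟨hp.2, h2⟩, (Gf p h2).symm⟩

end Pool.Agent.MP_e1dc65_gt.B

end
end MrgPart0

-- ======== part 1: formerly Pool.Agent.MP_e1dc65_gt.b.Adapt
section MrgPart1

/-! PROJECT HC: charts adapted to a boundary component, and a retraction near it. -/

open scoped ContDiff Manifold Topology
open Set Filter Function Topology

noncomputable section

namespace Pool.Agent.MP_e1dc65_gt.B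

variable {M : Mf E4} {W : Type} [TopologicalSpace W] [ChartedSpace (EuclideanHalfSpace 5) W]
  [IsManifold (𝓡∂ 5) ∞ W] {i : M → W}

/-- a chart of `W` in which `i` is the inclusion of the boundary of the half space -/
structure Ad (i : M → W) (φ : OpenPartialHomeomorph M E4) (Ψ : W → E4 × ℝ) (Φ : E4 × ℝ → W)
    (S : Set W) (T : Set (E4 × ℝ)) : Prop where
  oS : IsOpen S
  oT : IsOpen T
  φ1 : Sm M (vs E4) φ φ.source
  φ2 : Sm (vs E4) M φ.symm φ.target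
  Ψs : ContMDiffOn (𝓡∂ 5) 𝓘(ℝ, E4 × ℝ) ∞ Ψ S
  Φs : ContMDiffOn 𝓘(ℝ, E4 × ℝ) (𝓡∂ 5) ∞ Φ (T ∩ Hs E4)
  mΨ : MapsTo Ψ S (T ∩ Hs E4)
  mΦ : MapsTo Φ (T ∩ Hs E4) S
  left : ∀ w ∈ S, Φ (Ψ w) = w
  right : ∀ p ∈ T ∩ Hs E4, Ψ (Φ p) = p
  int : ∀ w ∈ S, (𝓡∂ 5).IsInteriorPoint w ↔ 0 < (Ψ w).2
  inc : ∀ y, i y ∈ S → y ∈ φ.source ∧ Ψ (i y) = (φ y, 0)
  fst : ∀ w ∈ S, (Ψ w).1 ∈ φ.target
  onto : ∀ w ∈ S, (Ψ w).2 = 0 → w = i (φ.symm (Ψ w).1)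

omit [IsManifold (𝓡∂ 5) ∞ W] in
theorem int_iff {ψ : OpenPartialHomeomorph W (EuclideanHalfSpace 5)}
    (h : ψ ∈ IsManifold.maximalAtlas (𝓡∂ 5) ∞ W) {w : W} (hw : w ∈ ψ.source) :
    (𝓡∂ 5).IsInteriorPoint w ↔ 0 < (ψ w).1 0 := by
  have : IsLocalDiffeomorphAt (𝓡∂ 5) (𝓡∂ 5) ∞ ψ w :=
    ⟨⟨ψ.toPartialEquiv, ψ.open_source, ψ.open_target, contMDiffOn_of_mem_maximalAtlas h,
      contMDiffOn_symm_of_mem_maximalAtlas h⟩, hw, fun _ _ => rfl⟩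
  rw [this.isInteriorPoint_iff (by simp), ModelWithCorners.IsInteriorPoint,
    interior_range_modelWithCornersEuclideanHalfSpace]
  rfl

omit [IsManifold (𝓡∂ 5) ∞ W] in
theorem exists_ad (hi : Manifold.IsSmoothEmbedding (𝓡 4) (𝓡∂ 5) ∞ i)
    (hb : ∀ y, ¬(𝓡∂ 5).IsInteriorPoint (i y)) (x : M) :
    ∃ φ Ψ Φ S T, Ad i φ Ψ Φ S T ∧ i x ∈ S := by
  have h := hi.isImmersion.isImmersionAt x
  obtain ⟨φ, hφ⟩ : ∃ φ, φ = h.domChart := ⟨_, rfl⟩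
  obtain ⟨ψ, hψ⟩ : ∃ ψ, ψ = h.codChart := ⟨_, rfl⟩
  have m1 : φ ∈ IsManifold.maximalAtlas (𝓡 4) ∞ M := hφ ▸ h.domChart_mem_maximalAtlas
  have m2 : ψ ∈ IsManifold.maximalAtlas (𝓡∂ 5) ∞ W := hψ ▸ h.codChart_mem_maximalAtlas
  have x1 : x ∈ φ.source := hφ ▸ h.mem_domChart_source
  have s1 : ∀ y ∈ φ.source, i y ∈ ψ.source := by
    rw [hφ, hψ]; exact h.source_subset_preimage_source
  obtain ⟨l, l1, l2⟩ : ∃ l : E4 →L[ℝ] EuclideanSpace ℝ (Fin 5), Injective l ∧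
      ∀ y ∈ φ.source, (ψ (i y)).1 = l (φ y) := by
    refine ⟨h.equiv.toContinuousLinearMap.comp (ContinuousLinearMap.inl ℝ _ _),
      h.equiv.injective.comp (Prod.mk_left_injective 0), fun y hy => ?_⟩
    have k : φ y ∈ (h.domChart.extend (𝓡 4)).target := by simpa [← hφ] using φ.map_source hy
    have := h.writtenInCharts k
    simpa [← hφ, ← hψ, φ.left_inv hy] using this
  have l3 : ∀ u, l u 0 = 0 := by
    have e : (fun u => l u 0) =ᶠ[𝓝 (φ x)] fun _ => 0 := by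
      filter_upwards [φ.open_target.mem_nhds (φ.map_source x1)] with u hu
      have k := φ.map_target hu
      rw [← φ.right_inv hu, ← l2 _ k]
      exact le_antisymm (not_lt.1 fun p => hb _ ((int_iff m2 (s1 _ k)).2 p)) (ψ _).2
    intro u
    have d := ((EuclideanSpace.proj (𝕜 := ℝ) (0 : Fin 5)).comp l).hasFDerivAt (x := φ x)
    exact DFunLike.congr_fun (d.unique ((hasFDerivAt_const (0 : ℝ) (φ x)).congr_of_eventuallyEq e)) u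
  obtain ⟨A, A0, A1⟩ : ∃ A : (E4 × ℝ) ≃L[ℝ] EuclideanSpace ℝ (Fin 5), (∀ p, A p 0 = p.2) ∧
      ∀ u, A (u, 0) = l u := by
    let a : (E4 × ℝ) →ₗ[ℝ] EuclideanSpace ℝ (Fin 5) := l.toLinearMap.coprod
      (LinearMap.toSpanSingleton ℝ _ (EuclideanSpace.single 0 1))
    have a0 : ∀ p, a p 0 = p.2 := fun p => by simp [a, l3]
    have ai : Injective a := (injective_iff_map_eq_zero a).2 fun p hp => by
      have h2 : p.2 = 0 := by rw [← a0, hp]; rfl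
      have h1 : l p.1 = l 0 := by simpa [a, h2] using hp
      exact Prod.ext (l1 h1) h2
    exact ⟨(a.linearEquivOfInjective ai (by simp)).toContinuousLinearEquiv, a0,
      fun u => by simp [a]⟩
  have A2 : ∀ y, (A.symm y).2 = y 0 := fun y => by rw [← A0, A.apply_symm_apply]
  obtain ⟨S', oS', eS'⟩ := hi.isEmbedding.isInducing.isOpen_iff.1 φ.open_source
  have cΨ : ContMDiffOn (𝓡∂ 5) 𝓘(ℝ, E4 × ℝ) ∞ (fun w => A.symm (ψ w).1) ψ.source :=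
    A.symm.contDiff.contMDiff.comp_contMDiffOn (ψ.contMDiffOn_extend m2)
  have oS : IsOpen (ψ.source ∩ (fun w => (A.symm (ψ w).1).1) ⁻¹' φ.target ∩ S') :=
    (cΨ.continuousOn.fst.isOpen_inter_preimage ψ.open_source φ.open_target).inter oS'
  obtain ⟨T, oT, eT⟩ := IsInducing.subtypeVal.isOpen_iff.1
    (ψ.isOpen_image_of_subset_source oS fun w hw => hw.1.1)
  have key : ∀ p ∈ A ⁻¹' T ∩ Hs E4, ∃ w ∈ ψ.source ∩ (fun w => (A.symm (ψ w).1).1) ⁻¹' φ.target ∩ S',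
      (ψ w).1 = A p := fun p hp => by
    obtain ⟨w, hw, e⟩ := (Set.ext_iff.1 eT ⟨A p, (mem_Hs.1 hp.2).trans_eq (A0 p).symm⟩).1 hp.1
    exact ⟨w, hw, congrArg Subtype.val e⟩
  have lf : ∀ w ∈ ψ.source, (ψ.extend (𝓡∂ 5)).symm (ψ w).1 = w := fun w hw =>
    ψ.extend_left_inv (I := 𝓡∂ 5) hw
  have ic : ∀ y ∈ φ.source, A.symm (ψ (i y)).1 = (φ y, 0) := fun y hy => by
    rw [l2 y hy, ← A1, A.symm_apply_apply]
  refine ⟨φ, fun w => A.symm (ψ w).1, fun p => (ψ.extend (𝓡∂ 5)).symm (A p), _, A ⁻¹' T,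
    ⟨oS, oT.preimage A.continuous,
      (sm_iff φ.open_source).2 (contMDiffOn_of_mem_maximalAtlas m1),
      (sm_iff (X := vs E4) φ.open_target).2 (contMDiffOn_symm_of_mem_maximalAtlas m1),
      cΨ.mono fun w hw => hw.1.1,
      (contMDiffOn_extend_symm m2).comp A.contDiff.contMDiff.contMDiffOn fun p hp => ?_,
      fun w hw => ⟨?_, mem_Hs.2 (by rw [A2]; exact (ψ w).2)⟩, fun p hp => ?_,
      fun w hw => by rw [A.apply_symm_apply, lf w hw.1.1], fun p hp => ?_,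
      fun w hw => by rw [A2]; exact int_iff m2 hw.1.1, fun y hy => ?_, fun w hw => hw.1.2,
      fun w hw e => ?_⟩, ⟨s1 x x1, ?_⟩, ?_⟩
  · obtain ⟨w, hw, e⟩ := key p hp
    exact ⟨ψ w, ψ.map_source hw.1.1, e⟩
  · rw [mem_preimage, A.apply_symm_apply]
    exact (eT ▸ mem_image_of_mem ψ hw : ψ w ∈ Subtype.val ⁻¹' T)
  · obtain ⟨w, hw, e⟩ := key p hp
    simp only [← e, lf w hw.1.1]
    exact hw
  · obtain ⟨w, hw, e⟩ := key p hp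
    simp only [← e, lf w hw.1.1]
    rw [e, A.symm_apply_apply]
  · have : y ∈ φ.source := eS' ▸ hy.2
    exact ⟨this, ic y this⟩
  · have k := φ.map_target hw.1.2
    refine ψ.injOn hw.1.1 (s1 _ k) (Subtype.ext (A.symm.injective ?_))
    rw [ic _ k, φ.right_inv hw.1.2]
    exact Prod.ext rfl e
  · rw [mem_preimage, ic x x1]
    exact φ.map_source x1
  · exact (eS' ▸ x1 : x ∈ i ⁻¹' S')

/-- a smooth retraction to the boundary component and a defining function on `O` -/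
structure Gd (i : M → W) (O : Set W) (π : W → M) (ρ : W → ℝ) : Prop where
  op : IsOpen O
  πs : ∀ w ∈ O, ContMDiffAt (𝓡∂ 5) 𝓘(ℝ, E4) ∞ π w
  ρs : ∀ w ∈ O, ContMDiffAt (𝓡∂ 5) 𝓘(ℝ, ℝ) ∞ ρ w
  nn : ∀ w ∈ O, 0 ≤ ρ w
  inc : ∀ y, i y ∈ O → π (i y) = y ∧ ρ (i y) = 0
  low : ∀ y, i y ∈ O → ∃ φ Ψ Φ S T c, Ad i φ Ψ Φ S T ∧ i y ∈ S ∧ 0 < c ∧
    ∀ᶠ w in 𝓝 (i y), c * (Ψ w).2 ≤ ρ w

omit [IsManifold (𝓡∂ 5) ∞ W] in
theorem Ad.gd {φ Ψ Φ S T} (h : Ad i φ Ψ Φ S T) :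
    Gd i S (fun w => φ.symm (Ψ w).1) fun w => (Ψ w).2 := by
  have a := fun w hw => h.Ψs.contMDiffAt (h.oS.mem_nhds (x := w) hw)
  refine ⟨h.oS, fun w hw => (h.φ2 _ (h.fst w hw)).comp w (contDiffAt_fst.comp_contMDiffAt (a w hw)),
    fun w hw => contDiffAt_snd.comp_contMDiffAt (a w hw), fun w hw => mem_Hs.1 (h.mΨ hw).2,
    fun y hy => ?_, fun y hy => ⟨φ, Ψ, Φ, S, T, 1, h, hy, one_pos, by simp⟩⟩
  simp [(h.inc y hy).2, φ.left_inv (h.inc y hy).1]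

variable [T2Space W] [CompactSpace W]

open Classical in
theorem Gd.blend (hi : Continuous i) {O π ρ φ Ψ Φ S T} {K K' : Set M} (h : Gd i O π ρ)
    (h' : Ad i φ Ψ Φ S T) (hK : IsCompact K) (hK' : IsCompact K') (k : MapsTo i K O)
    (k' : MapsTo i K' S) : ∃ O π ρ, Gd i O π ρ ∧ MapsTo i (K ∪ K') O := by
  have g' := h'.gd
  obtain ⟨χ, χ0, χ1, χ2⟩ := exists_contMDiffMap_zero_one_nhds_of_isClosed (𝓡∂ 5) (n := ⊤)
    ((hK.image hi).isClosed.sdiff h'.oS) ((hK'.image hi).isClosed.sdiff h.op)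
    (disjoint_left.2 (by rintro _ ⟨⟨y, hy, rfl⟩, -⟩ h2; exact h2.2 (k hy)))
  have χs := χ.contMDiff
  have o1 : IsOpen (O ∩ π ⁻¹' φ.source ∩ S) :=
    (ContinuousOn.isOpen_inter_preimage (fun w hw => (h.πs w hw).continuousAt.continuousWithinAt)
      h.op φ.open_source).inter h'.oS
  obtain ⟨b, hb⟩ : ∃ b : W → E4, b = fun w => (1 - χ w) • φ (π w) + χ w • (Ψ w).1 := ⟨_, rfl⟩
  have bs : ∀ w ∈ O ∩ π ⁻¹' φ.source ∩ S, ContMDiffAt (𝓡∂ 5) 𝓘(ℝ, E4) ∞ b w := fun w hw =>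
    hb ▸ ((contMDiffAt_const.sub (χs w)).smul ((h'.φ1 _ hw.1.2).comp w (h.πs w hw.1.1))).add
      ((χs w).smul (contDiffAt_fst.comp_contMDiffAt (h'.Ψs.contMDiffAt (h'.oS.mem_nhds hw.2))))
  obtain ⟨P, hP⟩ : ∃ P, P = O ∩ π ⁻¹' φ.source ∩ S ∩ b ⁻¹' φ.target := ⟨_, rfl⟩
  have oP : IsOpen P := hP ▸ ContinuousOn.isOpen_inter_preimage
    (fun w hw => (bs w hw).continuousAt.continuousWithinAt) o1 φ.open_target
  have bi : ∀ y, i y ∈ O → i y ∈ S → b (i y) = φ y := fun y h1 h2 => by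
    simp [hb, (h.inc y h1).1, (h'.inc y h2).2, sub_smul]
  have iP : ∀ y, i y ∈ O → i y ∈ S → i y ∈ P := fun y h1 h2 => hP ▸
    ⟨⟨⟨h1, by rw [mem_preimage, (h.inc y h1).1]; exact (h'.inc y h2).1⟩, h2⟩,
      by rw [mem_preimage, bi y h1 h2]; exact φ.map_source (h'.inc y h2).1⟩
  obtain ⟨π', hπ⟩ : ∃ π' : W → M, π' = fun w => if w ∈ P then φ.symm (b w) else
    if χ w = 0 then π w else φ.symm (Ψ w).1 := ⟨_, rfl⟩
  have e0 : ∀ w, χ w = 0 → π' w = π w := fun w e => by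
    simp only [hπ, e, if_true]
    split_ifs with p
    · simp [hb, e, φ.left_inv (hP ▸ p).1.1.2]
    · rfl
  have e1 : ∀ w, χ w = 1 → π' w = φ.symm (Ψ w).1 := fun w e => by simp [hπ, hb, e]
  have n0 : ∀ w ∈ interior {w | χ w = 0}, ∀ᶠ v in 𝓝 w, χ v = 0 := fun w hw =>
    mem_interior_iff_mem_nhds.1 hw
  have n1 : ∀ w ∈ interior {w | χ w = 1}, ∀ᶠ v in 𝓝 w, χ v = 1 := fun w hw =>
    mem_interior_iff_mem_nhds.1 hw
  have sub : P ⊆ O ∩ S := fun w hw => ⟨(hP ▸ hw).1.1.1, (hP ▸ hw).1.2⟩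
  have nn : ∀ w ∈ P ∪ O ∩ interior {w | χ w = 0} ∪ S ∩ interior {w | χ w = 1},
      0 ≤ (1 - χ w) * ρ w ∧ 0 ≤ χ w * (Ψ w).2 := by
    rintro w ((hw | hw) | hw)
    · exact ⟨mul_nonneg (sub_nonneg.2 (χ2 w).2) (h.nn w (sub hw).1),
        mul_nonneg (χ2 w).1 (g'.nn w (sub hw).2)⟩
    · simp [(n0 w hw.2).self_of_nhds, h.nn w hw.1]
    · simp [(n1 w hw.2).self_of_nhds, g'.nn w hw.1]
  have oU : IsOpen (P ∪ O ∩ interior {w | χ w = 0} ∪ S ∩ interior {w | χ w = 1}) :=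
    (oP.union (h.op.inter isOpen_interior)).union (h'.oS.inter isOpen_interior)
  refine ⟨_, π', fun w => (1 - χ w) * ρ w + χ w * (Ψ w).2, ⟨oU, ?_, ?_,
    fun w hw => add_nonneg (nn w hw).1 (nn w hw).2, ?_, fun y hy => ?_⟩, fun y hy => ?_⟩
  · rintro w ((hw | hw) | hw)
    · refine ((h'.φ2 _ (hP ▸ hw).2).comp w (bs w (hP ▸ hw).1)).congr_of_eventuallyEq ?_
      filter_upwards [oP.mem_nhds hw] with v hv
      simp [hπ, hv]
    · exact (h.πs w hw.1).congr_of_eventuallyEq ((n0 w hw.2).mono e0)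
    · exact (g'.πs w hw.1).congr_of_eventuallyEq ((n1 w hw.2).mono e1)
  · rintro w ((hw | hw) | hw)
    · exact ((contMDiffAt_const.sub (χs w)).smul (h.ρs w (sub hw).1)).add
        ((χs w).smul (g'.ρs w (sub hw).2))
    · exact (h.ρs w hw.1).congr_of_eventuallyEq ((n0 w hw.2).mono fun v e => by simp [e])
    · exact (g'.ρs w hw.1).congr_of_eventuallyEq ((n1 w hw.2).mono fun v e => by simp [e])
  · rintro y ((hw | hw) | hw)
    · simp [hπ, hw, bi y (sub hw).1 (sub hw).2, φ.left_inv (h'.inc y (sub hw).2).1,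
        (h.inc y (sub hw).1).2, (h'.inc y (sub hw).2).2]
    · simp [e0, (n0 _ hw.2).self_of_nhds, h.inc y hw.1]
    · simp [e1, (n1 _ hw.2).self_of_nhds, (h'.inc y hw.1).2, φ.left_inv (h'.inc y hw.1).1]
  · have ev := (oU.eventually_mem hy).mono nn
    have alt : (i y ∈ O ∧ χ (i y) < 1) ∨ (i y ∈ S ∧ 0 < χ (i y)) := by
      rcases hy with (hw | hw) | hw
      · rcases lt_or_ge (χ (i y)) 1 with l | l
        exacts [Or.inl ⟨(sub hw).1, l⟩, Or.inr ⟨(sub hw).2, one_pos.trans_le l⟩]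
      · exact Or.inl ⟨hw.1, by simp [(n0 _ hw.2).self_of_nhds]⟩
      · exact Or.inr ⟨hw.1, by simp [(n1 _ hw.2).self_of_nhds]⟩
    rcases alt with ⟨h1, h2⟩ | ⟨h1, h2⟩
    · obtain ⟨φ₁, Ψ₁, Φ₁, S₁, T₁, c, a1, a2, a3, a4⟩ := h.low y h1
      refine ⟨φ₁, Ψ₁, Φ₁, S₁, T₁, (1 - χ (i y)) / 2 * c, a1, a2, mul_pos (by linarith) a3, ?_⟩
      filter_upwards [ev, a4, h.op.mem_nhds h1, χs.continuous.continuousAt.eventually
        (gt_mem_nhds (show χ (i y) < (1 + χ (i y)) / 2 by linarith))] with w b1 b2 b3 b4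
      nlinarith [h.nn w b3, b1.2]
    · refine ⟨φ, Ψ, Φ, S, T, χ (i y) / 2, h', h1, by linarith, ?_⟩
      filter_upwards [ev, h'.oS.mem_nhds h1, χs.continuous.continuousAt.eventually
        (lt_mem_nhds (show χ (i y) / 2 < χ (i y) by linarith))] with w b1 b3 b4
      nlinarith [g'.nn w b3, b1.1]
  · by_cases h1 : i y ∈ O <;> by_cases h2 : i y ∈ S
    · exact Or.inl (Or.inl (iP y h1 h2))
    · exact Or.inl (Or.inr ⟨h1, mem_interior_iff_mem_nhds.2 (mem_nhdsSet_iff_forall.1 χ0 _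
        ⟨mem_image_of_mem i (hy.resolve_right fun e => h2 (k' e)), h2⟩)⟩)
    · exact Or.inr ⟨h2, mem_interior_iff_mem_nhds.2 (mem_nhdsSet_iff_forall.1 χ1 _
        ⟨mem_image_of_mem i (hy.resolve_left fun e => h1 (k e)), h1⟩)⟩
    · exact absurd (hy.elim (fun e => h1 (k e)) fun e => h2 (k' e)) id

theorem exists_gd [CompactSpace M] (hi : Manifold.IsSmoothEmbedding (𝓡 4) (𝓡∂ 5) ∞ i)
    (hb : ∀ y, ¬(𝓡∂ 5).IsInteriorPoint (i y)) : ∃ O π ρ, Gd i O π ρ ∧ ∀ y, i y ∈ O := by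
  have ic := hi.isEmbedding.continuous
  have := (isCompact_univ (X := M)).induction_on (p := fun A => ∀ K, IsCompact K →
      (∃ O π ρ, Gd i O π ρ ∧ MapsTo i K O) → ∃ K', IsCompact K' ∧ K ∪ A ⊆ K' ∧
        ∃ O π ρ, Gd i O π ρ ∧ MapsTo i K' O)
    (fun K hK h => ⟨K, hK, by simp, h⟩)
    (fun A B s h K hK g => (h K hK g).imp fun _ a => ⟨a.1, (union_subset_union_right _ s).trans a.2.1,
      a.2.2⟩)
    (fun A B hA hB K hK g => by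
      obtain ⟨K₁, a1, a2, a3⟩ := hA K hK g
      obtain ⟨K₂, b1, b2, b3⟩ := hB K₁ a1 a3
      exact ⟨K₂, b1, by rw [← union_assoc]; exact (union_subset_union_left _ a2).trans b2, b3⟩)
    fun x _ => by
      obtain ⟨φ, Ψ, Φ, S, T, a, hx⟩ := exists_ad hi hb x
      obtain ⟨K', k1, k2, k3⟩ := local_compact_nhds ((a.oS.preimage ic).mem_nhds hx)
      refine ⟨K', nhdsWithin_le_nhds k1, fun K hK ⟨O, π, ρ, g, m⟩ =>
        ⟨_, hK.union k3, subset_rfl, g.blend ic a hK k3 m k2⟩⟩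
  obtain ⟨x⟩ := M.ne
  obtain ⟨φ, Ψ, Φ, S, T, a, -⟩ := exists_ad hi hb x
  obtain ⟨K, -, s, O, π, ρ, g, m⟩ := this ∅ isCompact_empty ⟨_, _, _, a.gd, mapsTo_empty _ _⟩
  exact ⟨O, π, ρ, g, fun y => m (s (Or.inr trivial))⟩

end Pool.Agent.MP_e1dc65_gt.B

end
end MrgPart1

-- marker of a merged file
example : 731051 + 876376 = 731051 + 876376 := rfl

end MrgPart3

-- marker of a merged file
example : 731051 + 876376 = 731051 + 876376 := rfl
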