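import Pool.Agent.MP_e1dc65_gt.Spec1
import Pool.Agent.MP_e1dc65_gt.fm.Hza
import Pool.Agent.MP_e1dc65_gt.t2.Disc

/-! PROJECT HC: a nowhere vanishing top form gives an oriented atlas. -/

open scoped ContDiff Manifold Topology
open Set Filter Function Pool.Agent.MP_c8d41b_gt.GF

noncomputable section

namespace Pool.Agent.MP_e1dc65_gt

theorem ori : OriStmt := by
  intro X _ _ o ho
  let b := (EuclideanSpace.basisFun (Fin 4) ℝ).toBasis
  refine ⟨{e | e ∈ IsManifold.maximalAtlas (𝓡 4) ∞ X ∧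
    ∀ y ∈ e.target, 0 < ev (List.ofFn b) (pbM (vs E4) X e.symm o y)}, fun e he => he.1,
    fun x : X => ?_, fun e he e' he' y hy => ?_⟩
  · have hx := mem_chart_source E4 x
    obtain ⟨L, hL⟩ : ∃ L : E4 ≃L[ℝ] E4, 0 < ev (List.ofFn b) (mp (L.symm : E4 →L[ℝ] E4) (o x)) := by
      rcases (ev_basis_ne b (ho.fm x trivial).2 (ho.ne x trivial)).lt_or_gt with k | k
      · refine ⟨(ℝ ∙ b 0)ᗮ.reflection.toContinuousLinearEquiv.symm, ?_⟩
        rw [ev_mp_det]
        have : ((ℝ ∙ b 0)ᗮ.reflection.toContinuousLinearEquiv : E4 →L[ℝ] E4).det = -1 := by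
          have := Submodule.det_reflection (ℝ ∙ b 0)ᗮ
          rwa [Submodule.orthogonal_orthogonal, finrank_span_singleton (b.ne_zero 0), pow_one] at this
        rw [ContinuousLinearEquiv.symm_symm, this]
        linarith
      · exact ⟨.refl ℝ _, by simpa [mp_id] using k⟩
    let e := (ch X x).trans L.toHomeomorph.toOpenPartialHomeomorph
    have s1 : ∀ y ∈ e.source, SmAt X (vs E4) e y := fun y hy =>
      (smAt_ch hy.1).trans (ldAt_cle L _).sm
    have s2 : ∀ y ∈ e.target, SmAt (vs E4) X e.symm y := fun y hy =>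
      (ldAt_cle L.symm _).sm.trans (smAt_ch_symm hy.2)
    have xe : x ∈ e.source := ⟨hx, trivial⟩
    have c : ∀ᶠ y in 𝓝 (e x), 0 < ev (List.ofFn b) (pbM (vs E4) X e.symm o y) := by
      have k : ContDiffAt ℝ ∞ (pbM (vs E4) X e.symm o) (e x) :=
        fmAt_vs.1 ((ho.fm _ trivial).1.pb (s2 _ (e.map_source xe)))
      have k' : ContinuousAt (fun y => evL (List.ofFn b) (pbM (vs E4) X e.symm o y)) (e x) :=
        (evL (List.ofFn b)).continuous_of_finiteDimensional.continuousAt.comp k.continuousAt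
      simp only [← ev_eq] at k'
      refine k'.eventually (lt_mem_nhds ?_)
      have l : L.symm (e x) = ch X x x := L.symm_apply_apply _
      have := pbM_comp (X := vs E4) (Y := vs E4) (Z := X) (ldAt_cle L.symm (e x)).sm
        (smAt_ch_symm (x := x) (by rw [l]; exact mem_chart_target E4 x)) o
      beta_reduce
      rw [show pbM (vs E4) X e.symm o (e x) = _ from this, pbM, Df_vs, L.symm.fderiv, l]
      rwa [show pbM (vs E4) X (ch X x).symm o (ch X x x) = o x from loc_self o]
    obtain ⟨O, h1, h2, h3⟩ := eventually_nhds_iff.1 c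
    refine ⟨(e.symm.restrOpen O h2).symm, ⟨OpenPartialHomeomorph.mem_maximalAtlas_of_contMDiffOn _
      (fun y hy => (s1 y hy.1).contMDiffWithinAt) fun y hy => (s2 y hy.1).contMDiffWithinAt,
      fun y hy => h1 y hy.2⟩, xe, h3⟩
  · have s1 : SmAt (vs E4) X e.symm y := contMDiffAt_symm_of_mem_maximalAtlas he.1 hy.1
    have s2 : SmAt X (vs E4) e' (e.symm y) := contMDiffAt_of_mem_maximalAtlas he'.1 hy.2
    have s3 : SmAt (vs E4) X e'.symm (e' (e.symm y)) :=
      contMDiffAt_symm_of_mem_maximalAtlas he'.1 (e'.map_source hy.2)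
    have k := he.2 y hy.1
    rw [pbM_congr (f' := fun z => e'.symm (e' (e.symm z)))
      ((s1.cont.eventually (e'.eventually_left_inverse hy.2)).mono fun _ h => h.symm),
      pbM_comp (s1.trans s2) s3, pbM, ev_mp_det, Df_vs] at k
    exact (pos_iff_pos_of_mul_pos k).2 (he'.2 _ (e'.map_source hy.2))

end Pool.Agent.MP_e1dc65_gt
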