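import Pool.Agent.MP_e1dc65_gt.u.Spec

/-! PROJECT HC: the product with an interval is a smooth h-cobordism, so the notion is not
vacuous. -/

open scoped ContDiff Manifold
open Set Topology

noncomputable section

namespace Pool.Agent.MP_e1dc65_gt.B

variable {W : Type} [TopologicalSpace W] {M : Closed4}

theorem trans_sm (S S' : Side W M.carrier) {σ : ℝ → ℝ} (hσ : ContDiff ℝ ∞ σ)
    (h : ∀ p ∈ S.V, 0 ≤ p.2 → S'.a (S.g p) = p.1 ∧ S'.s (S.g p) = σ p.2)
    {e e'} (he : e ∈ atlas (EuclideanSpace ℝ (Fin 4)) M.carrier)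
    (he' : e' ∈ atlas (EuclideanSpace ℝ (Fin 4)) M.carrier) :
    ContDiffOn ℝ ∞ ((𝓡∂ 5) ∘ (S.chart e).symm.trans (S'.chart e') ∘ (𝓡∂ 5).symm)
      ((𝓡∂ 5).symm ⁻¹' ((S.chart e).symm.trans (S'.chart e')).source ∩ range (𝓡∂ 5)) := by
  rintro _ hy
  obtain ⟨⟨h1, h2⟩, y, rfl⟩ := id hy
  rw [(𝓡∂ 5).left_inv] at h1 h2
  have k : e.symm (cons5.symm y.1).1 ∈ e'.source := by
    have k1 := (h _ h1.2 y.2).1
    have k2 : S'.a (S.g (e.symm (cons5.symm y.1).1, y.1 0)) ∈ e'.source := h2.1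
    rwa [k1] at k2
  have c : ContDiffAt ℝ ∞ (fun u => e' (e.symm u)) (cons5.symm y.1).1 :=
    contMDiffAt_iff_contDiffAt.1
      ((contMDiffAt_of_mem_maximalAtlas (IsManifold.subset_maximalAtlas he') k).comp _
        (contMDiffAt_symm_of_mem_maximalAtlas (IsManifold.subset_maximalAtlas he) h1.1))
  have d : ContDiffAt ℝ ∞ (fun z => cons5 (e' (e.symm (cons5.symm z).1), σ (cons5.symm z).2)) y.1 :=
    cons5.contDiff.contDiffAt.comp y.1 (ContDiffAt.prodMk
      (ContDiffAt.comp (f := fun z => (cons5.symm z).1) y.1 c cons5.symm.contDiff.fst.contDiffAt)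
      (hσ.comp cons5.symm.contDiff.snd).contDiffAt)
  have e : ∀ z ∈ (𝓡∂ 5).symm ⁻¹' ((S.chart e).symm.trans (S'.chart e')).source ∩ range (𝓡∂ 5),
      ((𝓡∂ 5) ∘ (S.chart e).symm.trans (S'.chart e') ∘ (𝓡∂ 5).symm) z =
        cons5 (e' (e.symm (cons5.symm z).1), σ (cons5.symm z).2) := by
    rintro _ ⟨⟨h1, -⟩, z, rfl⟩
    rw [(𝓡∂ 5).left_inv] at h1
    simp only [Function.comp_apply, (𝓡∂ 5).left_inv]
    exact congrArg cons5 (Prod.ext (congrArg e' (h _ h1.2 z.2).1) (h _ h1.2 z.2).2)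
  exact d.contDiffWithinAt.congr e (e _ hy)

theorem Side.semb [ChartedSpace (EuclideanHalfSpace 5) W] [IsManifold (𝓡∂ 5) ∞ W]
    (S : Side W M.carrier) (h : ∀ x, S.chart (chartAt _ x) ∈ atlas (EuclideanHalfSpace 5) W) :
    Manifold.IsSmoothEmbedding (𝓡 4) (𝓡∂ 5) ∞ S.inc := by
  refine ⟨Manifold.IsImmersionOfComplement.isImmersion (F := ℝ) fun x =>
    .mk_of_continuousAt S.inc_cont.continuousAt cons5 (chartAt _ x) (S.chart (chartAt _ x))
      (mem_chart_source _ x) ⟨by rw [S.a_inc]; exact mem_chart_source _ x,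
        by rw [S.s_inc]; exact S.zero _⟩
      (IsManifold.chart_mem_maximalAtlas x) (IsManifold.subset_maximalAtlas (h x)) fun u hu => ?_,
    S.emb⟩
  have k : u ∈ (chartAt (EuclideanSpace ℝ (Fin 4)) x).target := by simpa using hu
  exact congrArg cons5 (Prod.ext ((congrArg _ (S.a_inc _)).trans ((chartAt _ x).right_inv k))
    (S.s_inc _))

theorem smoothHCob_refl (M : Closed4) : SmoothHCob M M := by
  have hC : ∀ p : M.carrier × ℝ, |(Homeomorph.refl _ p).2 - p.2| ≤ 0 := fun p => by simp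
  have := reg_cpt hC
  let _ := twoCharts (sideM hC) (sideN hC) (sides hC)
  have σ : ContDiff ℝ ∞ fun t : ℝ => 1 - t := contDiff_const.sub contDiff_id
  have : IsManifold (𝓡∂ 5) ∞ (Reg (Homeomorph.refl (M.carrier × ℝ)) 0) := by
    refine isManifold_of_contDiffOn _ _ _ ?_
    rintro _ _ (⟨e, he, rfl⟩ | ⟨e, he, rfl⟩) (⟨e', he', rfl⟩ | ⟨e', he', rfl⟩)
    · exact trans_sm _ _ contDiff_id (sideM hC).right he he'
    · refine trans_sm _ _ σ (fun p hp h0 => ?_) he he'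
      have : p.2 < 0 + 1 := hp
      simp [sideM, sideN, max_eq_left h0, min_eq_left (show p.2 ≤ 1 by linarith)]
    · refine trans_sm _ _ σ (fun p hp h0 => ?_) he he'
      have : 0 < 0 + 1 - p.2 := hp
      simp [sideM, sideN, max_eq_left h0, show p.2 ≤ 1 by linarith]
    · exact trans_sm _ _ contDiff_id (sideN hC).right he he'
  exact ⟨_, _, _, hcob (sideM hC) (sideN hC) (sides hC), this,
    (sideM hC).semb fun x => Or.inl ⟨_, chart_mem_atlas _ x, rfl⟩,
    (sideN hC).semb fun x => Or.inr ⟨_, chart_mem_atlas _ x, rfl⟩⟩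

end Pool.Agent.MP_e1dc65_gt.B
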